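import Mathlib

/-!
Sets of numbers whose digit strings are covered by few boxes (combinatorial rectangles with
respect to a partition of the digit positions), and nondeterministic one-way machines.
-/

set_option autoImplicit false

namespace Pool.Agent.H966R2.Box

open Finset

/-- the number with base-`b` digits `w` (least significant digit `w 0`) -/
def numVal {n b : ℕ} (w : Fin n → Fin b) : ℕ := ∑ i, (w i : ℕ) * b ^ (i : ℕ)

/-- `r_A(x)`, ordered pairs -/
noncomputable def repCount (A : Set ℕ) (x : ℕ) : ℕ :=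
  Set.ncard {p : ℕ × ℕ | p.1 ∈ A ∧ p.2 ∈ A ∧ p.1 + p.2 = x}

/-- `W` is a box for the partition `P` of the positions into blocks: replacing one block of a word
of `W` by the same block of another word of `W` gives a word of `W`. -/
def IsBox {n b : ℕ} {κ : Type*} (P : Fin n → κ) (W : Set (Fin n → Fin b)) : Prop :=
  ∀ u ∈ W, ∀ v ∈ W, ∀ j : κ, ∀ w : Fin n → Fin b,
    (∀ i, P i = j → w i = u i) → (∀ i, P i ≠ j → w i = v i) → w ∈ W

theorem val_eq {n b : ℕ} (w : Fin n → Fin b) : numVal w = (finFunctionFinEquiv w : ℕ) := by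
  rw [finFunctionFinEquiv_apply]
  rfl

theorem val_injective {n b : ℕ} : Function.Injective (numVal : (Fin n → Fin b) → ℕ) := by
  intro u v h
  rw [val_eq, val_eq] at h
  exact finFunctionFinEquiv.injective (Fin.ext h)

theorem val_lt {n b : ℕ} (w : Fin n → Fin b) : numVal w < b ^ n := by
  rw [val_eq]
  exact (finFunctionFinEquiv w).2

theorem exists_val {n b x : ℕ} (hx : x < b ^ n) : ∃ w : Fin n → Fin b, numVal w = x := by
  refine ⟨finFunctionFinEquiv.symm ⟨x, hx⟩, ?_⟩
  rw [val_eq, Equiv.apply_symm_apply]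

section

set_option linter.unusedSectionVars false

variable {n b : ℕ} {κ : Type*} [Fintype κ] [DecidableEq κ] {P : Fin n → κ}

/-- the blocks on which `u` and `v` differ -/
def dif (P : Fin n → κ) (u v : Fin n → Fin b) : Finset κ :=
  univ.filter fun j => ∃ i, P i = j ∧ u i ≠ v i

theorem mem_dif {u v : Fin n → Fin b} {j : κ} : j ∈ dif P u v ↔ ∃ i, P i = j ∧ u i ≠ v i := by
  simp [dif]

/-- `u` on the blocks of `T`, `v` elsewhere -/
def mix (P : Fin n → κ) (T : Finset κ) (u v : Fin n → Fin b) : Fin n → Fin b :=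
  fun i => if P i ∈ T then u i else v i

theorem mix_mem {W : Set (Fin n → Fin b)} (hW : IsBox P W) {u v : Fin n → Fin b} (hu : u ∈ W)
    (hv : v ∈ W) (T : Finset κ) : mix P T u v ∈ W := by
  induction T using Finset.induction_on with
  | empty =>
    have : mix P ∅ u v = v := by
      funext i
      simp [mix]
    rw [this]
    exact hv
  | insert j T hj ih =>
    refine hW u hu _ ih j _ (fun i hi => ?_) (fun i hi => ?_)
    · simp [mix, hi]
    · simp [mix, hi]

theorem pow_le_repr {A : Set ℕ} {W : Set (Fin n → Fin b)} (hW : IsBox P W)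
    (hA : ∀ w ∈ W, numVal w ∈ A) {u v : Fin n → Fin b} (hu : u ∈ W) (hv : v ∈ W) :
    2 ^ (dif P u v).card ≤ repCount A (numVal u + numVal v) := by
  classical
  rw [← Finset.card_powerset]
  have hfin : {p : ℕ × ℕ | p.1 ∈ A ∧ p.2 ∈ A ∧ p.1 + p.2 = numVal u + numVal v}.Finite := by
    refine ((Set.finite_Iic (numVal u + numVal v)).prod (Set.finite_Iic (numVal u + numVal v))).subset ?_
    rintro ⟨x, y⟩ ⟨_, _, h⟩
    simp only at h
    exact ⟨by simp only [Set.mem_Iic]; omega, by simp only [Set.mem_Iic]; omega⟩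
  rw [repCount, ← Set.ncard_coe_finset]
  refine Set.ncard_le_ncard_of_injOn (fun T => (numVal (mix P T u v), numVal (mix P T v u))) ?_ ?_ hfin
  · intro T _
    refine ⟨hA _ (mix_mem hW hu hv T), hA _ (mix_mem hW hv hu T), ?_⟩
    show numVal (mix P T u v) + numVal (mix P T v u) = numVal u + numVal v
    unfold numVal
    rw [← Finset.sum_add_distrib, ← Finset.sum_add_distrib]
    refine Finset.sum_congr rfl fun i _ => ?_
    unfold mix
    by_cases h : P i ∈ T
    · simp [h]
    · simp [h, add_comm]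
  · intro T hT T' hT' h
    simp only [Finset.coe_powerset, Set.mem_preimage, Set.mem_powerset_iff, Finset.coe_subset]
      at hT hT'
    have h1 : mix P T u v = mix P T' u v := val_injective (Prod.mk.inj h).1
    ext j
    have key : ∀ S S' : Finset κ, S ⊆ dif P u v → mix P S u v = mix P S' u v → j ∈ S → j ∈ S' := by
      intro S S' hS hSS hj
      obtain ⟨i, hi, hne⟩ := mem_dif.1 (hS hj)
      by_contra hcon
      have h2 := congrFun hSS i
      unfold mix at h2
      rw [if_pos (by rw [hi]; exact hj), if_neg (by rw [hi]; exact hcon)] at h2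
      exact hne h2
    exact ⟨key T T' hT h1, key T' T hT' h1.symm⟩

theorem box_small {W : Set (Fin n → Fin b)} (hW : IsBox P W) {L m : ℕ}
    (hL : ∀ j, (univ.filter fun i => P i = j).card ≤ L) (hb : 1 ≤ b)
    (hm : ∀ u ∈ W, ∀ v ∈ W, (dif P u v).card ≤ m) : W.ncard ≤ b ^ (m * L) := by
  classical
  rcases W.eq_empty_or_nonempty with rfl | ⟨w0, hw0⟩
  · simp
  -- maximal pair
  obtain ⟨⟨u, v⟩, huv, hmax⟩ := Set.Finite.exists_maximalFor
    (fun p : (Fin n → Fin b) × (Fin n → Fin b) => (dif P p.1 p.2).card) (W ×ˢ W)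
    (Set.toFinite _) ⟨(w0, w0), hw0, hw0⟩
  obtain ⟨hu, hv⟩ := huv
  simp only at hu hv
  set D := dif P u v with hD
  have hagree : ∀ w ∈ W, ∀ i, P i ∉ D → w i = u i := by
    intro w hw i hi
    by_contra hne
    set v' : Fin n → Fin b := fun i' => if P i' = P i then w i' else v i' with hv'
    have hv'W : v' ∈ W := hW w hw v hv (P i) v' (fun i' hi' => by simp [hv', hi'])
      (fun i' hi' => by simp [hv', hi'])
    have hsub : insert (P i) D ⊆ dif P u v' := by
      intro j hj
      rw [Finset.mem_insert] at hj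
      rcases hj with rfl | hj
      · exact mem_dif.2 ⟨i, rfl, by simp only [hv', if_true]; exact fun h => hne h.symm⟩
      · obtain ⟨i', hi', hne'⟩ := mem_dif.1 hj
        refine mem_dif.2 ⟨i', hi', ?_⟩
        have : P i' ≠ P i := by
          intro h
          apply hi
          rw [← h, hi']
          exact hj
        simp only [hv', this, if_false]
        exact hne'
    have h1 := Finset.card_le_card hsub
    rw [Finset.card_insert_of_notMem hi] at h1
    have h2 : (dif P u v').card ≤ D.card := by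
      by_contra hcon
      push Not at hcon
      have := hmax (j := (u, v')) ⟨hu, hv'W⟩ hcon.le
      simp only [← hD] at this
      omega
    omega
  -- injection into words on the blocks of `D`
  have h1 : W.ncard ≤ Fintype.card ({i // P i ∈ D} → Fin b) := by
    rw [← Nat.card_eq_fintype_card, ← Set.ncard_univ]
    refine Set.ncard_le_ncard_of_injOn (fun w => fun i : {i // P i ∈ D} => w i.1)
      (fun _ _ => Set.mem_univ _) ?_ (Set.toFinite _)
    intro w hw w' hw' h
    funext i
    by_cases hi : P i ∈ D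
    · exact congrFun h ⟨i, hi⟩
    · rw [hagree w hw i hi, hagree w' hw' i hi]
  have h2 : Fintype.card ({i // P i ∈ D} → Fin b) = b ^ (univ.filter fun i => P i ∈ D).card := by
    rw [Fintype.card_fun, Fintype.card_fin, Fintype.card_subtype]
  have h3 : (univ.filter fun i => P i ∈ D).card ≤ D.card * L := by
    rw [← smul_eq_mul]
    have h4 : (univ.filter fun i => P i ∈ D) = D.biUnion fun j => univ.filter fun i => P i = j := by
      ext i
      simp
    rw [h4]
    exact Finset.card_biUnion_le_card_mul _ _ _ fun j _ => hL j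
  rw [h2] at h1
  refine h1.trans (Nat.pow_le_pow_right hb (h3.trans ?_))
  exact Nat.mul_le_mul_right _ (hm u hu v hv)

theorem count_le_of_cover {A : Set ℕ} {m : ℕ} (hr : ∀ x, repCount A x < 2 ^ (m + 1)) (hb : 1 ≤ b)
    {L : ℕ} {ι : Type*} [Fintype ι] (P : ι → Fin n → κ)
    (hL : ∀ s j, (univ.filter fun i => P s i = j).card ≤ L)
    (F : ι → Set (Fin n → Fin b)) (hF : ∀ s, IsBox (P s) (F s))
    (hcov : (⋃ s, F s) = {w | numVal w ∈ A}) :
    (A ∩ Set.Iio (b ^ n)).ncard ≤ Fintype.card ι * b ^ (m * L) := by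
  classical
  have h1 : A ∩ Set.Iio (b ^ n) = numVal '' {w : Fin n → Fin b | numVal w ∈ A} := by
    ext x
    constructor
    · rintro ⟨hx, hlt⟩
      obtain ⟨w, hw⟩ := exists_val (n := n) (b := b) hlt
      exact ⟨w, by rw [Set.mem_ofPred_eq, hw]; exact hx, hw⟩
    · rintro ⟨w, hw, rfl⟩
      exact ⟨hw, val_lt w⟩
  rw [h1, Set.ncard_image_of_injective _ val_injective, ← hcov]
  refine (Set.ncard_iUnion_le_of_fintype _).trans ?_
  rw [← smul_eq_mul, Fintype.card, ← Finset.sum_const]
  refine Finset.sum_le_sum fun s _ => box_small (hF s) (hL s) hb fun u hu v hv => ?_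
  have h2 := pow_le_repr (A := A) (hF s) (fun w hw => by
    have : w ∈ ⋃ s, F s := Set.mem_iUnion.2 ⟨s, hw⟩
    rw [hcov] at this
    exact this) hu hv
  have h3 := hr (numVal u + numVal v)
  have h4 : 2 ^ (dif (P s) u v).card < 2 ^ (m + 1) := lt_of_le_of_lt h2 h3
  have h5 := (Nat.pow_lt_pow_iff_right (by norm_num : 1 < 2)).1 h4
  omega

end

/-- The machine with initial states `I`, final states `E` and transitions `δ t q a` (the states
reachable from `q` in step `t` when the digit `a` is read) reads the digits of `w` in the order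
`w (π 0), w (π 1), ...` and has an accepting run. -/
def Accepts {σ : Type*} {n b : ℕ} (I E : Set σ) (δ : ℕ → σ → Fin b → Set σ)
    (π : Equiv.Perm (Fin n)) (w : Fin n → Fin b) : Prop :=
  ∃ q : ℕ → σ, q 0 ∈ I ∧ q n ∈ E ∧ ∀ t : Fin n, q (t + 1) ∈ δ t (q t) (w (π t))

/-- words with an accepting run passing through the states `f j` at the times `(j + 1) L` -/
def cutBox {σ : Type*} {n b : ℕ} (I E : Set σ) (δ : ℕ → σ → Fin b → Set σ)
    (π : Equiv.Perm (Fin n)) (k L : ℕ) (f : Fin k → σ) : Set (Fin n → Fin b) :=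
  {w | ∃ q : ℕ → σ, q 0 ∈ I ∧ q n ∈ E ∧ (∀ t : Fin n, q (t + 1) ∈ δ t (q t) (w (π t))) ∧
    ∀ j : Fin k, q ((j + 1) * L) = f j}

theorem cutBox_isBox {σ : Type*} {n b : ℕ} (I E : Set σ) (δ : ℕ → σ → Fin b → Set σ)
    (π : Equiv.Perm (Fin n)) (k L : ℕ) (hL : 1 ≤ L) (hn : n ≤ (k + 1) * L) (f : Fin k → σ) :
    IsBox (fun i => (⟨(π.symm i : ℕ) / L, by
      rw [Nat.div_lt_iff_lt_mul hL]
      exact lt_of_lt_of_le (π.symm i).2 hn⟩ : Fin (k + 1)))
      (cutBox I E δ π k L f) := by
  classical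
  rintro u ⟨qu, hu0, hun, hut, huf⟩ v ⟨qv, hv0, hvn, hvt, hvf⟩ ⟨j, hj⟩ w hwj hwnj
  -- times assigned to `u`
  set J : ℕ → Prop := fun t => j * L ≤ t ∧ (t < (j + 1) * L ∨ j = k) with hJ
  have hcut : ∀ i : Fin k, qu ((i + 1) * L) = qv ((i + 1) * L) := fun i => by rw [huf, hvf]
  refine ⟨fun t => if J t then qu t else qv t, ?_, ?_, ?_, ?_⟩
  · show (if J 0 then qu 0 else qv 0) ∈ I
    split_ifs
    · exact hu0
    · exact hv0
  · show (if J n then qu n else qv n) ∈ E
    split_ifs
    · exact hun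
    · exact hvn
  · intro t
    have hPt : ((π.symm (π t) : Fin n) : ℕ) = t := by simp
    by_cases ht : (t : ℕ) / L = j
    · -- time in block `j`
      have h1 : j * L ≤ t := by
        rw [← ht]; exact Nat.div_mul_le_self _ _
      have h2 : (t : ℕ) < (j + 1) * L := by
        rw [← ht, mul_comm]; exact Nat.lt_mul_div_succ _ hL
      have hw : w (π t) = u (π t) := by
        apply hwj
        apply Fin.ext
        show ((π.symm (π t) : Fin n) : ℕ) / L = j
        rw [hPt, ht]
      have hJt : J t := ⟨h1, Or.inl h2⟩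
      have hnext : (if J ((t : ℕ) + 1) then qu ((t : ℕ) + 1) else qv ((t : ℕ) + 1)) =
          qu ((t : ℕ) + 1) := by
        by_cases hJ1 : J ((t : ℕ) + 1)
        · rw [if_pos hJ1]
        · rw [if_neg hJ1]
          simp only [hJ, not_and_or, not_or, not_le, not_lt] at hJ1
          rcases hJ1 with h3 | ⟨h3, h4⟩
          · omega
          · have h5 : (t : ℕ) + 1 = (j + 1) * L := by omega
            rw [h5]
            exact (hcut ⟨j, by omega⟩).symm
      show (if J ((t : ℕ) + 1) then qu ((t : ℕ) + 1) else qv ((t : ℕ) + 1)) ∈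
        δ t (if J t then qu t else qv t) (w (π t))
      rw [hnext, if_pos hJt, hw]
      exact hut t
    · have hw : w (π t) = v (π t) := by
        apply hwnj
        intro h
        apply ht
        have := congrArg Fin.val h
        simpa [hPt] using this
      have hJt : ¬ J t := by
        rintro ⟨h1, h2⟩
        apply ht
        have h3 : (t : ℕ) < (j + 1) * L := by
          rcases h2 with h2 | h2
          · exact h2
          · rw [h2]; exact lt_of_lt_of_le t.2 hn
        exact Nat.div_eq_of_lt_le h1 h3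
      have hnext : (if J ((t : ℕ) + 1) then qu ((t : ℕ) + 1) else qv ((t : ℕ) + 1)) =
          qv ((t : ℕ) + 1) := by
        by_cases hJ1 : J ((t : ℕ) + 1)
        · rw [if_pos hJ1]
          obtain ⟨h1, h2⟩ := hJ1
          have h3 : ¬ j * L ≤ t := by
            intro h3
            apply hJt
            refine ⟨h3, ?_⟩
            rcases h2 with h2 | h2
            · left; omega
            · right; exact h2
          have h5 : (t : ℕ) + 1 = j * L := by omega
          have hj1 : 1 ≤ j := by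
            rcases Nat.eq_zero_or_pos j with h0 | h0
            · subst h0; omega
            · exact h0
          rw [h5]
          have h6 := hcut ⟨j - 1, by omega⟩
          simp only [Nat.sub_add_cancel hj1] at h6
          exact h6
        · rw [if_neg hJ1]
      show (if J ((t : ℕ) + 1) then qu ((t : ℕ) + 1) else qv ((t : ℕ) + 1)) ∈
        δ t (if J t then qu t else qv t) (w (π t))
      rw [hnext, if_neg hJt, hw]
      exact hvt t
  · intro i
    show (if J (((i : ℕ) + 1) * L) then qu (((i : ℕ) + 1) * L) else qv (((i : ℕ) + 1) * L)) = f i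
    split_ifs
    · exact huf i
    · exact hvf i

/-- the basic inequality for machines -/
theorem count_le_of_machine {A : Set ℕ} {m : ℕ} (hr : ∀ x, repCount A x < 2 ^ (m + 1)) {b n : ℕ}
    (hb : 1 ≤ b) (k L : ℕ) (hL : 1 ≤ L) (hn : n ≤ (k + 1) * L) {σ : Type*} [Fintype σ]
    (I E : Set σ) (δ : ℕ → σ → Fin b → Set σ) (π : Equiv.Perm (Fin n))
    (hM : ∀ w : Fin n → Fin b, Accepts I E δ π w ↔ numVal w ∈ A) :
    (A ∩ Set.Iio (b ^ n)).ncard ≤ Fintype.card σ ^ k * b ^ (m * L) := by
  classical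
  have h := count_le_of_cover (ι := Fin k → σ) (κ := Fin (k + 1)) hr hb (L := L) (fun _ => _) ?_
    (fun f => cutBox I E δ π k L f) (fun f => cutBox_isBox I E δ π k L hL hn f) ?_
  · rwa [Fintype.card_fun, Fintype.card_fin] at h
  · intro _ j
    have hinj : ((univ.filter fun i : Fin n => (⟨(π.symm i : ℕ) / L, by
        rw [Nat.div_lt_iff_lt_mul hL]
        exact lt_of_lt_of_le (π.symm i).2 hn⟩ : Fin (k + 1)) = j).card) ≤
        (Finset.Ico ((j : ℕ) * L) (((j : ℕ) + 1) * L)).card := by
      apply Finset.card_le_card_of_injOn (fun i => (π.symm i : ℕ))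
      · intro i hi
        simp only [Finset.coe_filter, Finset.mem_univ, true_and, Set.mem_ofPred_eq] at hi
        have h1 : ((π.symm i : Fin n) : ℕ) / L = j := by
          have := congrArg Fin.val hi
          simpa using this
        simp only [Finset.coe_Ico, Set.mem_Ico]
        constructor
        · rw [← h1]; exact Nat.div_mul_le_self _ _
        · rw [← h1, mul_comm]; exact Nat.lt_mul_div_succ _ hL
      · intro x _ y _ hxy
        have h1 : π.symm x = π.symm y := Fin.ext hxy
        exact π.symm.injective h1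
    refine hinj.trans ?_
    rw [Nat.card_Ico, add_mul, one_mul]
    omega
  · ext w
    rw [Set.mem_iUnion, Set.mem_ofPred_eq, ← hM w]
    constructor
    · rintro ⟨f, q, h0, h1, h2, _⟩
      exact ⟨q, h0, h1, h2⟩
    · rintro ⟨q, h0, h1, h2⟩
      exact ⟨fun j => q ((j + 1) * L), q, h0, h1, h2, fun j => rfl⟩

/-- the asymptotic form: sets with at least `c N^(1/h)` elements below `N` -/
theorem exp_states {A : Set ℕ} {m h : ℕ} (hm : 1 ≤ m) (hh : 1 ≤ h)
    (hr : ∀ x, repCount A x < 2 ^ (m + 1)) {c : ℝ} (hc : 0 < c)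
    (hcount : ∀ᶠ N : ℕ in Filter.atTop, c * (N : ℝ) ^ (1 / h : ℝ) ≤ ((A ∩ Set.Iio N).ncard : ℝ))
    {b : ℕ} (hb : 2 ≤ b) :
    ∀ᶠ n : ℕ in Filter.atTop, ∀ (σ : Type) [Fintype σ] (I E : Set σ)
      (δ : ℕ → σ → Fin b → Set σ) (π : Equiv.Perm (Fin n)),
      (∀ w : Fin n → Fin b, Accepts I E δ π w ↔ numVal w ∈ A) →
      (b : ℝ) ^ ((n : ℝ) / (4 * m * h ^ 2)) ≤ Fintype.card σ := by
  have hb1 : (1 : ℝ) < b := by exact_mod_cast (by omega : 1 < b)
  have hb0 : (0 : ℝ) < b := by linarith
  have hmr : (1 : ℝ) ≤ m := by exact_mod_cast hm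
  have hhr : (1 : ℝ) ≤ h := by exact_mod_cast hh
  have hpos : (0 : ℝ) < 4 * m * h ^ 2 := by positivity
  have htend : Filter.Tendsto (fun n : ℕ => b ^ n) Filter.atTop Filter.atTop :=
    tendsto_pow_atTop_atTop_of_one_lt (by omega)
  have h1 := htend.eventually hcount
  have h2 : ∀ᶠ n : ℕ in Filter.atTop, (b : ℝ) ^ (m : ℝ) / c < (b : ℝ) ^ ((n : ℝ) / (4 * m * h ^ 2)) := by
    have h3 : Filter.Tendsto (fun n : ℕ => (b : ℝ) ^ ((n : ℝ) / (4 * m * h ^ 2)))
        Filter.atTop Filter.atTop := by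
      refine (tendsto_rpow_atTop_of_base_gt_one (b : ℝ) hb1).comp ?_
      exact tendsto_natCast_atTop_atTop.atTop_div_const hpos
    exact h3.eventually_gt_atTop _
  filter_upwards [h1, h2] with n hn1 hn2 σ _ I E δ π hM
  by_contra hcon
  push Not at hcon
  set s : ℝ := (Fintype.card σ : ℝ) with hs
  set K : ℕ := 2 * m * h with hK
  have hK1 : 1 ≤ K := Nat.mul_pos (by omega) (by omega)
  set L : ℕ := n / K + 1 with hL
  have hnL : n ≤ (K - 1 + 1) * L := by
    rw [Nat.sub_add_cancel hK1, hL]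
    exact (Nat.lt_mul_div_succ n hK1).le
  have hineq := count_le_of_machine hr (by omega : 1 ≤ b) (K - 1) L
    (by rw [hL]; exact Nat.le_add_left 1 _) hnL I E δ π hM
  have hineq' : ((A ∩ Set.Iio (b ^ n)).ncard : ℝ) ≤ s ^ (K - 1) * (b : ℝ) ^ (m * L) := by
    rw [hs]
    exact_mod_cast hineq
  have h3 : c * ((b ^ n : ℕ) : ℝ) ^ (1 / h : ℝ) ≤ s ^ (K - 1) * (b : ℝ) ^ (m * L) :=
    hn1.trans hineq'
  have e1 : ((b ^ n : ℕ) : ℝ) ^ (1 / h : ℝ) = (b : ℝ) ^ ((n : ℝ) / h) := by
    push_cast
    rw [← Real.rpow_natCast, ← Real.rpow_mul hb0.le]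
    congr 1
    ring
  have e2 : (b : ℝ) ^ (m * L) ≤ (b : ℝ) ^ ((n : ℝ) / (2 * h) + m) := by
    rw [← Real.rpow_natCast]
    apply Real.rpow_le_rpow_of_exponent_le hb1.le
    rw [hL]
    push_cast
    have h4 : ((n / K : ℕ) : ℝ) ≤ (n : ℝ) / K := Nat.cast_div_le
    have h5 : (m : ℝ) * ((n / K : ℕ) : ℝ) ≤ (n : ℝ) / (2 * h) := by
      calc (m : ℝ) * ((n / K : ℕ) : ℝ) ≤ m * ((n : ℝ) / K) := by gcongr
        _ = (n : ℝ) / (2 * h) := by
          rw [hK]
          push_cast
          field_simp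
    linarith
  have e3 : s ^ (K - 1) ≤ (b : ℝ) ^ ((n : ℝ) / (4 * m * h ^ 2) * ((K - 1 : ℕ) : ℝ)) := by
    rw [Real.rpow_mul hb0.le, Real.rpow_natCast]
    exact pow_le_pow_left₀ (by rw [hs]; positivity) hcon.le _
  have e4 : (n : ℝ) / (4 * m * h ^ 2) * ((K - 1 : ℕ) : ℝ) =
      (n : ℝ) / (2 * h) - (n : ℝ) / (4 * m * h ^ 2) := by
    rw [Nat.cast_sub hK1, hK]
    push_cast
    field_simp
    ring
  rw [e4] at e3
  have h5 : c * (b : ℝ) ^ ((n : ℝ) / h) ≤
      (b : ℝ) ^ ((n : ℝ) / h - (n : ℝ) / (4 * m * h ^ 2) + m) := by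
    rw [← e1]
    refine h3.trans ?_
    calc s ^ (K - 1) * (b : ℝ) ^ (m * L) ≤
        (b : ℝ) ^ ((n : ℝ) / (2 * h) - (n : ℝ) / (4 * m * h ^ 2)) *
          (b : ℝ) ^ ((n : ℝ) / (2 * h) + m) := by
          apply mul_le_mul e3 e2 (by positivity) (by positivity)
      _ = (b : ℝ) ^ ((n : ℝ) / h - (n : ℝ) / (4 * m * h ^ 2) + m) := by
          rw [← Real.rpow_add hb0]
          congr 1
          field_simp
          ring
  have h6 : (b : ℝ) ^ ((n : ℝ) / h - (n : ℝ) / (4 * m * h ^ 2) + m) =
      (b : ℝ) ^ ((n : ℝ) / h) * ((b : ℝ) ^ (m : ℝ) / (b : ℝ) ^ ((n : ℝ) / (4 * m * h ^ 2))) := by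
    rw [← Real.rpow_sub hb0, ← Real.rpow_add hb0]
    congr 1
    ring
  rw [h6, mul_comm] at h5
  have h7 := le_of_mul_le_mul_left h5 (by positivity)
  rw [le_div_iff₀ (by positivity)] at h7
  rw [div_lt_iff₀ hc] at hn2
  linarith

end Pool.Agent.H966R2.Box
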