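import Mathlib

/-!
# Structure of context-free languages: exchange loops or polynomial growth
-/

set_option autoImplicit false

namespace Pool.Agent.H966R2.CF

open ContextFreeGrammar

variable {T : Type*} {g : ContextFreeGrammar T}

/-- `D g S α w`: the string of symbols `α` derives the terminal word `w` by a derivation that
rewrites only nonterminals of `S`. -/
inductive D (g : ContextFreeGrammar T) (S : Set g.NT) :
    List (Symbol T g.NT) → List T → Prop
  | nil : D g S [] []
  | term (t : T) (α : List (Symbol T g.NT)) (w : List T) (h : D g S α w) :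
      D g S (Symbol.terminal t :: α) (t :: w)
  | nonterm (r : ContextFreeRule T g.NT) (hr : r ∈ g.rules) (hS : r.input ∈ S)
      (α : List (Symbol T g.NT)) (u w : List T) (h1 : D g S r.output u) (h2 : D g S α w) :
      D g S (Symbol.nonterminal r.input :: α) (u ++ w)

theorem D.append {S : Set g.NT} {α β : List (Symbol T g.NT)} {u v : List T}
    (h1 : D g S α u) (h2 : D g S β v) : D g S (α ++ β) (u ++ v) := by
  induction h1 with
  | nil => simpa using h2
  | term t α w h ih => exact D.term t _ _ ih
  | nonterm r hr hS α u w h1 h2' ih1 ih2 =>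
    rw [List.append_assoc]
    exact D.nonterm r hr hS _ _ _ h1 ih2

theorem D.split {S : Set g.NT} (α β : List (Symbol T g.NT)) (w : List T)
    (h : D g S (α ++ β) w) : ∃ u v, w = u ++ v ∧ D g S α u ∧ D g S β v := by
  induction α generalizing w with
  | nil => exact ⟨[], w, rfl, D.nil, h⟩
  | cons a α ih =>
    rw [List.cons_append] at h
    cases h with
    | term t _ w' h' =>
      obtain ⟨u, v, rfl, h1, h2⟩ := ih _ h'
      exact ⟨t :: u, v, rfl, D.term _ _ _ h1, h2⟩
    | nonterm r hr hS _ u' w' h1 h2 =>
      obtain ⟨u, v, rfl, h3, h4⟩ := ih _ h2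
      exact ⟨u' ++ u, v, by simp, D.nonterm r hr hS _ _ _ h1 h3, h4⟩

theorem D.of_terminals (S : Set g.NT) (w : List T) : D g S (w.map Symbol.terminal) w := by
  induction w with
  | nil => exact D.nil
  | cons t w ih => exact D.term _ _ _ ih

theorem D.derives {S : Set g.NT} {α : List (Symbol T g.NT)} {w : List T} (h : D g S α w) :
    g.Derives α (w.map Symbol.terminal) := by
  induction h with
  | nil => exact Relation.ReflTransGen.refl
  | term t α w h ih =>
    have := ih.append_left [Symbol.terminal t]
    simpa using this
  | nonterm r hr hS α u w h1 h2 ih1 ih2 =>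
    have e1 : g.Derives (Symbol.nonterminal r.input :: α) (r.output ++ α) := by
      have : g.Produces (Symbol.nonterminal r.input :: α) (r.output ++ α) :=
        ⟨r, hr, ContextFreeRule.Rewrites.head α⟩
      exact this.single
    have e2 : g.Derives (r.output ++ α) (u.map Symbol.terminal ++ α) := ih1.append_right α
    have e3 : g.Derives (u.map Symbol.terminal ++ α)
        (u.map Symbol.terminal ++ w.map Symbol.terminal) := ih2.append_left _
    rw [List.map_append]
    exact e1.trans (e2.trans e3)

theorem D.of_derives {α : List (Symbol T g.NT)} {w : List T}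
    (h : g.Derives α (w.map Symbol.terminal)) : D g Set.univ α w := by
  induction h using Relation.ReflTransGen.head_induction_on with
  | refl => exact D.of_terminals _ _
  | head h1 _ ih =>
    obtain ⟨r, hr, hrw⟩ := h1
    obtain ⟨p, q, rfl, rfl⟩ := hrw.exists_parts
    obtain ⟨u, v, rfl, h3, h4⟩ := D.split _ _ _ ih
    obtain ⟨u1, u2, rfl, h5, h6⟩ := D.split _ _ _ h3
    refine D.append (D.append h5 ?_) h4
    have := D.nonterm r hr (Set.mem_univ _) [] u2 [] h6 D.nil
    simpa using this

/-- `Loop g A x y`: `A` derives `x A y`. -/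
def Loop (g : ContextFreeGrammar T) (A : g.NT) (x y : List T) : Prop :=
  g.Derives [Symbol.nonterminal A]
    (x.map Symbol.terminal ++ [Symbol.nonterminal A] ++ y.map Symbol.terminal)

theorem Loop.comp {A : g.NT} {x y x' y' : List T} (h : Loop g A x y) (h' : Loop g A x' y') :
    Loop g A (x ++ x') (y' ++ y) := by
  unfold Loop at *
  have := (h'.append_left (x.map Symbol.terminal)).append_right (y.map Symbol.terminal)
  refine h.trans ?_
  simpa using this

theorem Loop.nil (A : g.NT) : Loop g A [] [] := by
  unfold Loop
  simpa using Relation.ReflTransGen.refl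

/-- Removing the nonterminal `A`: either a derivation does not use `A`, or we can cut it at an
occurrence of `A` below which `A` is not used. -/
theorem D.cut {S : Set g.NT} (A : g.NT) {α : List (Symbol T g.NT)} {w : List T}
    (h : D g S α w) :
    D g (S \ {A}) α w ∨ ∃ (x y v : List T) (r : ContextFreeRule T g.NT), r ∈ g.rules ∧
      r.input = A ∧ D g (S \ {A}) r.output v ∧ w = x ++ v ++ y ∧
      g.Derives α (x.map Symbol.terminal ++ [Symbol.nonterminal A] ++ y.map Symbol.terminal) := by
  induction h with
  | nil => exact Or.inl D.nil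
  | term t α w h ih =>
    rcases ih with ih | ⟨x, y, v, r, hr, hA, hd, rfl, hder⟩
    · exact Or.inl (D.term _ _ _ ih)
    · refine Or.inr ⟨t :: x, y, v, r, hr, hA, hd, by simp, ?_⟩
      have := hder.append_left [Symbol.terminal t]
      simpa using this
  | nonterm r hr hS α u w h1 h2 ih1 ih2 =>
    have e1 : g.Derives (Symbol.nonterminal r.input :: α) (r.output ++ α) := by
      have : g.Produces (Symbol.nonterminal r.input :: α) (r.output ++ α) :=
        ⟨r, hr, ContextFreeRule.Rewrites.head α⟩
      exact this.single
    rcases ih2 with ih2 | ⟨x, y, v, r', hr', hA, hd, rfl, hder⟩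
    · rcases ih1 with ih1 | ⟨x, y, v, r', hr', hA, hd, rfl, hder⟩
      · by_cases hA : r.input = A
        · refine Or.inr ⟨[], w, u, r, hr, hA, ih1, by simp, ?_⟩
          subst hA
          have := (h2.derives).append_left [Symbol.nonterminal r.input]
          simpa using this
        · exact Or.inl (D.nonterm r hr (show r.input ∈ S \ {A} from ⟨hS, hA⟩) _ _ _ ih1 ih2)
      · refine Or.inr ⟨x, y ++ w, v, r', hr', hA, hd, by simp, ?_⟩
        refine e1.trans ((hder.append_right α).trans ?_)
        have := (h2.derives).append_left
          (x.map Symbol.terminal ++ [Symbol.nonterminal A] ++ y.map Symbol.terminal)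
        simpa using this
    · refine Or.inr ⟨u ++ x, y, v, r', hr', hA, hd, by simp, ?_⟩
      have e2 : g.Derives (r.output ++ α) (u.map Symbol.terminal ++ α) :=
        (h1.derives).append_right α
      refine e1.trans (e2.trans ?_)
      have := hder.append_left (u.map Symbol.terminal)
      simpa using this

/-- A nonterminal that occurs in some derivation of a word of the language. -/
def Useful (g : ContextFreeGrammar T) (A : g.NT) : Prop :=
  ∃ u v z : List T, g.Derives [Symbol.nonterminal g.initial]
      (u.map Symbol.terminal ++ [Symbol.nonterminal A] ++ v.map Symbol.terminal) ∧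
    g.Derives [Symbol.nonterminal A] (z.map Symbol.terminal)

theorem D.useful {α : List (Symbol T g.NT)} {w : List T} (h : D g Set.univ α w) :
    ∀ p q : List T, g.Derives [Symbol.nonterminal g.initial]
      (p.map Symbol.terminal ++ α ++ q.map Symbol.terminal) →
      D g {A | Useful g A ∧ ∃ r ∈ g.rules, r.input = A} α w := by
  induction h with
  | nil => intro p q _; exact D.nil
  | term t α w h ih =>
    intro p q hp
    refine D.term _ _ _ (ih (p ++ [t]) q ?_)
    simpa using hp
  | nonterm r hr hS α u w h1 h2 ih1 ih2 =>
    intro p q hp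
    have hin : g.Derives [Symbol.nonterminal r.input] r.output := by
      have : g.Produces [Symbol.nonterminal r.input] r.output :=
        ⟨r, hr, ContextFreeRule.Rewrites.input_output⟩
      exact this.single
    have hA : Useful g r.input := by
      refine ⟨p, w ++ q, u, hp.trans ?_, hin.trans h1.derives⟩
      have := ((h2.derives).append_left
        (p.map Symbol.terminal ++ [Symbol.nonterminal r.input])).append_right
        (q.map Symbol.terminal)
      simpa using this
    refine D.nonterm r hr (show r.input ∈ {A | Useful g A ∧ ∃ r ∈ g.rules, r.input = A} from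
      ⟨hA, r, hr, rfl⟩) _ _ _ (ih1 p (w ++ q) ?_) (ih2 (p ++ u) q ?_)
    · refine hp.trans ?_
      have e1 := ((hin.append_left (p.map Symbol.terminal)).append_right
        (α ++ q.map Symbol.terminal))
      have e2 := ((h2.derives).append_left
        (p.map Symbol.terminal ++ r.output)).append_right (q.map Symbol.terminal)
      have e1' : g.Derives (p.map Symbol.terminal ++ Symbol.nonterminal r.input :: α ++
          q.map Symbol.terminal) (p.map Symbol.terminal ++ r.output ++ α ++
          q.map Symbol.terminal) := by simpa using e1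
      have e2' : g.Derives (p.map Symbol.terminal ++ r.output ++ α ++
          q.map Symbol.terminal) (p.map Symbol.terminal ++ r.output ++
          (w ++ q).map Symbol.terminal) := by simpa using e2
      exact e1'.trans e2'
    · refine hp.trans ?_
      have e1 := (((hin.trans h1.derives).append_left (p.map Symbol.terminal)).append_right
        (α ++ q.map Symbol.terminal))
      simpa using e1

/-- Polynomial growth of a set of words. -/
def PolyB (L : Set (List T)) : Prop :=
  ∃ C d : ℕ, ∀ n, ∃ F : Finset (List T), F.card ≤ C * (n + 1) ^ d ∧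
    ∀ w ∈ L, w.length ≤ n → w ∈ F

theorem PolyB.mono {L L' : Set (List T)} (h : PolyB L) (hs : L' ⊆ L) : PolyB L' := by
  obtain ⟨C, d, h⟩ := h
  refine ⟨C, d, fun n => ?_⟩
  obtain ⟨F, hF, hm⟩ := h n
  exact ⟨F, hF, fun w hw hn => hm w (hs hw) hn⟩

theorem PolyB.singleton (w0 : List T) : PolyB {w | w = w0} :=
  ⟨1, 0, fun n => ⟨{w0}, by simp, fun w hw _ => by simpa using hw⟩⟩

theorem PolyB.mul {L L' : Set (List T)} (h : PolyB L) (h' : PolyB L') :
    PolyB {w | ∃ u ∈ L, ∃ v ∈ L', w = u ++ v} := by
  classical
  obtain ⟨C, d, h⟩ := h
  obtain ⟨C', d', h'⟩ := h'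
  refine ⟨C * C', d + d', fun n => ?_⟩
  obtain ⟨F, hF, hm⟩ := h n
  obtain ⟨F', hF', hm'⟩ := h' n
  refine ⟨(F ×ˢ F').image (fun p => p.1 ++ p.2), ?_, ?_⟩
  · refine Finset.card_image_le.trans ?_
    rw [Finset.card_product]
    calc F.card * F'.card ≤ (C * (n + 1) ^ d) * (C' * (n + 1) ^ d') := Nat.mul_le_mul hF hF'
      _ = C * C' * (n + 1) ^ (d + d') := by rw [pow_add]; ring
  · rintro w ⟨u, hu, v, hv, rfl⟩ hn
    rw [List.length_append] at hn
    refine Finset.mem_image.2 ⟨(u, v), Finset.mem_product.2 ⟨hm u hu (by omega),
      hm' v hv (by omega)⟩, rfl⟩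

theorem PolyB.biUnion {ι : Type*} (s : Finset ι) (L : ι → Set (List T))
    (h : ∀ i ∈ s, PolyB (L i)) : PolyB {w | ∃ i ∈ s, w ∈ L i} := by
  classical
  induction s using Finset.induction_on with
  | empty => exact ⟨0, 0, fun n => ⟨∅, by simp, by simp⟩⟩
  | insert a s ha ih =>
    obtain ⟨C, d, h1⟩ := ih (fun i hi => h i (Finset.mem_insert_of_mem hi))
    obtain ⟨C', d', h2⟩ := h a (Finset.mem_insert_self _ _)
    refine ⟨C + C', max d d', fun n => ?_⟩
    obtain ⟨F, hF, hm⟩ := h1 n
    obtain ⟨F', hF', hm'⟩ := h2 n
    refine ⟨F ∪ F', ?_, ?_⟩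
    · refine (Finset.card_union_le _ _).trans ?_
      rw [add_mul]
      exact Nat.add_le_add
        (hF.trans (Nat.mul_le_mul_left _ (Nat.pow_le_pow_right (Nat.succ_pos _) (le_max_left _ _))))
        (hF'.trans (Nat.mul_le_mul_left _
          (Nat.pow_le_pow_right (Nat.succ_pos _) (le_max_right _ _))))
    · rintro w ⟨i, hi, hw⟩ hn
      rw [Finset.mem_insert] at hi
      rcases hi with rfl | hi
      · exact Finset.mem_union_right _ (hm' w hw hn)
      · exact Finset.mem_union_left _ (hm w ⟨i, hi, hw⟩ hn)

theorem PolyB.of_lengthInj (L : Set (List T)) (h : ∀ u ∈ L, ∀ v ∈ L, u.length = v.length → u = v) :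
    PolyB L := by
  classical
  refine ⟨1, 1, fun n => ?_⟩
  refine ⟨(Finset.range (n + 1)).image
    (fun m => if hm : ∃ w ∈ L, w.length = m then hm.choose else []), ?_, ?_⟩
  · refine Finset.card_image_le.trans ?_
    simp
  · intro w hw hn
    refine Finset.mem_image.2 ⟨w.length, by simpa using Nat.lt_succ_of_le hn, ?_⟩
    have hex : ∃ w' ∈ L, w'.length = w.length := ⟨w, hw, rfl⟩
    rw [dif_pos hex]
    exact h _ hex.choose_spec.1 _ hw hex.choose_spec.2

theorem polyB_of_commute
    (hcom : ∀ A, Useful g A → ∀ x y x' y', Loop g A x y → Loop g A x' y' →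
      x ++ x' = x' ++ x ∧ y ++ y' = y' ++ y) :
    ∀ (n : ℕ) (S : Finset g.NT), S.card = n → (∀ A ∈ S, Useful g A) →
      ∀ α : List (Symbol T g.NT), PolyB {w | D g (S : Set g.NT) α w} := by
  classical
  intro n
  induction n with
  | zero =>
    intro S hS _ α
    have hS0 : S = ∅ := Finset.card_eq_zero.1 hS
    subst hS0
    induction α with
    | nil =>
      refine (PolyB.singleton []).mono ?_
      intro w hw
      cases hw
      rfl
    | cons a α ih =>
      cases a with
      | terminal t =>
        refine ((PolyB.singleton [t]).mul ih).mono ?_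
        intro w hw
        cases hw with
        | term _ _ w h => exact ⟨[t], rfl, w, h, rfl⟩
      | nonterminal A =>
        refine ih.mono ?_
        intro w hw
        cases hw with
        | nonterm r hr hS' _ u w h1 h2 => simp at hS'
  | succ n IH =>
    intro S hS hU α
    induction α with
    | nil =>
      refine (PolyB.singleton []).mono ?_
      intro w hw
      cases hw
      rfl
    | cons a α ih =>
      cases a with
      | terminal t =>
        refine ((PolyB.singleton [t]).mul ih).mono ?_
        intro w hw
        cases hw with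
        | term _ _ w h => exact ⟨[t], rfl, w, h, rfl⟩
      | nonterminal A =>
        by_cases hA : A ∈ S
        · have hX : PolyB {x : List T | ∃ y, Loop g A x y} := by
            refine PolyB.of_lengthInj _ ?_
            rintro u ⟨y, hu⟩ v ⟨y', hv⟩ hlen
            exact List.append_inj_left (hcom A (hU A hA) u y v y' hu hv).1 hlen
          have hY : PolyB {y : List T | ∃ x, Loop g A x y} := by
            refine PolyB.of_lengthInj _ ?_
            rintro u ⟨y, hu⟩ v ⟨y', hv⟩ hlen
            exact List.append_inj_left (hcom A (hU A hA) y u y' v hu hv).2 hlen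
          have hV : PolyB {v : List T | ∃ r ∈ g.rules,
              v ∈ {v | D g ((S.erase A : Finset g.NT) : Set g.NT) r.output v}} := by
            refine PolyB.biUnion _ _ ?_
            intro r _
            refine IH (S.erase A) ?_ ?_ r.output
            · rw [Finset.card_erase_of_mem hA, hS]; rfl
            · intro B hB
              exact hU B (Finset.mem_of_mem_erase hB)
          refine (((hX.mul hV).mul hY).mul ih).mono ?_
          intro w hw
          have hw' : D g (S : Set g.NT) ([Symbol.nonterminal A] ++ α) w := hw
          obtain ⟨u, v, rfl, h1, h2⟩ := D.split _ _ _ hw'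
          refine ⟨u, ?_, v, h2, rfl⟩
          rcases D.cut A h1 with h3 | ⟨x, y, v', r, hr, _, hd, rfl, hder⟩
          · exfalso
            cases h3 with
            | nonterm r hr hS' _ u w h1 h2 => exact hS'.2 rfl
          · refine ⟨x ++ v', ⟨x, ⟨y, hder⟩, v', ⟨r, hr, ?_⟩, rfl⟩, y, ⟨x, hder⟩, rfl⟩
            show D g ((S.erase A : Finset g.NT) : Set g.NT) r.output v'
            rw [Finset.coe_erase]
            exact hd
        · refine ih.mono ?_
          intro w hw
          cases hw with
          | nonterm r hr hS' _ u w h1 h2 => exact absurd hS' hA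

/-- Either some useful nonterminal has two different loops of the same shape, or the language
has polynomial growth. -/
theorem dichotomy (g : ContextFreeGrammar T) :
    (∃ (A : g.NT) (x y x' y' : List T), Useful g A ∧ Loop g A x y ∧ Loop g A x' y' ∧
      x.length = x'.length ∧ y.length = y'.length ∧ (x ≠ x' ∨ y ≠ y')) ∨
    PolyB {w : List T | w ∈ g.language} := by
  classical
  by_cases hcom : ∀ A, Useful g A → ∀ x y x' y', Loop g A x y → Loop g A x' y' →
      x ++ x' = x' ++ x ∧ y ++ y' = y' ++ y
  · right
    have hfin : ({A | Useful g A ∧ ∃ r ∈ g.rules, r.input = A} : Set g.NT).Finite := by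
      refine ((g.rules.image (fun r => r.input)).finite_toSet).subset ?_
      rintro A ⟨_, r, hr, rfl⟩
      simp only [Finset.coe_image, Set.mem_image, Finset.mem_coe]
      exact ⟨r, hr, rfl⟩
    have := polyB_of_commute hcom _ hfin.toFinset rfl (by
      intro A hA
      rw [Set.Finite.mem_toFinset] at hA
      exact hA.1) [Symbol.nonterminal g.initial]
    refine this.mono ?_
    intro w hw
    have h1 : g.Derives [Symbol.nonterminal g.initial] (w.map Symbol.terminal) := hw
    have h2 := D.useful (D.of_derives h1) [] [] (by simpa using Relation.ReflTransGen.refl)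
    show D g (hfin.toFinset : Set g.NT) _ w
    rw [Set.Finite.coe_toFinset]
    exact h2
  · left
    push Not at hcom
    obtain ⟨A, hA, x, y, x', y', h1, h2, h3⟩ := hcom
    refine ⟨A, x ++ x', y' ++ y, x' ++ x, y ++ y', hA, h1.comp h2, h2.comp h1, ?_, ?_, ?_⟩
    · simp [add_comm]
    · simp [add_comm]
    · by_cases h4 : x ++ x' = x' ++ x
      · right
        intro h5
        exact h3 h4 h5.symm
      · left; exact h4

end Pool.Agent.H966R2.CF
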