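import Pool.Agent.H966R2.CFStruct

/-!
# The exchange argument: many representations
-/

set_option autoImplicit false

namespace Pool.Agent.H966R2.CF

variable {T : Type*}

/-- Value of a word in an additive positional system: the letter `t` at position `i`
contributes `W i t`. -/
def value (W : ℕ → T → ℕ) (w : List T) : ℕ := (w.mapIdx W).sum

theorem value_append (W : ℕ → T → ℕ) (u v : List T) :
    value W (u ++ v) = value W u + value (fun i => W (i + u.length)) v := by
  unfold value
  rw [List.mapIdx_append, List.sum_append]

/-- Left blocks. -/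
def Xw (x0 x1 : List T) : List Bool → List T
  | [] => []
  | b :: s => (if b then x1 else x0) ++ Xw x0 x1 s

/-- Right blocks (in the reverse order). -/
def Yw (y0 y1 : List T) : List Bool → List T
  | [] => []
  | b :: s => Yw y0 y1 s ++ (if b then y1 else y0)

theorem length_Xw {x0 x1 : List T} (h : x0.length = x1.length) (s : List Bool) :
    (Xw x0 x1 s).length = s.length * x0.length := by
  induction s with
  | nil => simp [Xw]
  | cons b s ih =>
    cases b <;> simp [Xw, ih, h, add_mul, add_comm]

theorem length_Yw {y0 y1 : List T} (h : y0.length = y1.length) (s : List Bool) :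
    (Yw y0 y1 s).length = s.length * y0.length := by
  induction s with
  | nil => simp [Yw]
  | cons b s ih =>
    cases b <;> simp [Yw, ih, h, add_mul]

theorem value_Xw {x0 x1 : List T} (h : x0.length = x1.length) (s : List Bool) :
    ∀ W : ℕ → T → ℕ, value W (Xw x0 x1 s) + value W (Xw x0 x1 (s.map not)) =
      value W (Xw x0 x1 (List.replicate s.length false)) +
      value W (Xw x0 x1 (List.replicate s.length true)) := by
  induction s with
  | nil => intro W; simp [Xw]
  | cons b s ih =>
    intro W
    cases b
    · simp only [Xw, List.map_cons, Bool.not_false, List.length_cons, List.replicate_succ,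
        value_append, if_true, Bool.false_eq_true, if_false, h]
      have := ih (fun i => W (i + x1.length))
      omega
    · simp only [Xw, List.map_cons, Bool.not_true, List.length_cons, List.replicate_succ,
        value_append, if_true, Bool.false_eq_true, if_false, h]
      have := ih (fun i => W (i + x1.length))
      omega

theorem value_Yw {y0 y1 : List T} (h : y0.length = y1.length) (s : List Bool) :
    ∀ W : ℕ → T → ℕ, value W (Yw y0 y1 s) + value W (Yw y0 y1 (s.map not)) =
      value W (Yw y0 y1 (List.replicate s.length false)) +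
      value W (Yw y0 y1 (List.replicate s.length true)) := by
  induction s with
  | nil => intro W; simp [Yw]
  | cons b s ih =>
    intro W
    have := ih W
    cases b
    · simp only [Yw, List.map_cons, Bool.not_false, List.length_cons, List.replicate_succ,
        value_append, if_true, Bool.false_eq_true, if_false, length_Yw h, List.length_map,
        List.length_replicate]
      omega
    · simp only [Yw, List.map_cons, Bool.not_true, List.length_cons, List.replicate_succ,
        value_append, if_true, Bool.false_eq_true, if_false, length_Yw h, List.length_map,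
        List.length_replicate]
      omega

theorem inj_blocks {x0 x1 y0 y1 : List T} (hx : x0.length = x1.length)
    (hy : y0.length = y1.length) (hne : x0 ≠ x1 ∨ y0 ≠ y1) :
    ∀ s s' : List Bool, s.length = s'.length → Xw x0 x1 s = Xw x0 x1 s' →
      Yw y0 y1 s = Yw y0 y1 s' → s = s' := by
  intro s
  induction s with
  | nil =>
    intro s' h _ _
    exact (List.length_eq_zero_iff.1 h.symm).symm
  | cons b s ih =>
    intro s' h h1 h2
    cases s' with
    | nil => simp at h
    | cons b' s' =>
      simp only [List.length_cons, Nat.add_right_cancel_iff] at h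
      simp only [Xw] at h1
      simp only [Yw] at h2
      have hl : (if b then x1 else x0).length = (if b' then x1 else x0).length := by
        cases b <;> cases b' <;> simp [hx]
      have hl2 : (Yw y0 y1 s).length = (Yw y0 y1 s').length := by
        rw [length_Yw hy, length_Yw hy, h]
      obtain ⟨h3, h4⟩ := List.append_inj h1 hl
      obtain ⟨h5, h6⟩ := List.append_inj h2 hl2
      have hb : b = b' := by
        cases b <;> cases b' <;> simp_all
      rw [hb, ih s' h h4 h5]

/-- The word built from blocks. -/
def Zw (u v z x0 x1 y0 y1 : List T) (s : List Bool) : List T :=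
  u ++ (Xw x0 x1 s ++ (z ++ (Yw y0 y1 s ++ v)))

theorem length_Zw {u v z x0 x1 y0 y1 : List T} (hx : x0.length = x1.length)
    (hy : y0.length = y1.length) (s : List Bool) :
    (Zw u v z x0 x1 y0 y1 s).length =
      u.length + z.length + v.length + s.length * (x0.length + y0.length) := by
  simp only [Zw, List.length_append, length_Xw hx, length_Yw hy]
  ring

theorem value_Zw {u v z x0 x1 y0 y1 : List T} (hx : x0.length = x1.length)
    (hy : y0.length = y1.length) (W : ℕ → T → ℕ) (s : List Bool) :
    value W (Zw u v z x0 x1 y0 y1 s) + value W (Zw u v z x0 x1 y0 y1 (s.map not)) =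
      value W (Zw u v z x0 x1 y0 y1 (List.replicate s.length false)) +
      value W (Zw u v z x0 x1 y0 y1 (List.replicate s.length true)) := by
  simp only [Zw, value_append, length_Xw hx, length_Yw hy, List.length_map,
    List.length_replicate]
  have h1 := value_Xw hx s (fun i => W (i + u.length))
  have h2 := value_Yw hy s
    (fun i => W (i + z.length + s.length * x0.length + u.length))
  omega

theorem inj_Zw {u v z x0 x1 y0 y1 : List T} (hx : x0.length = x1.length)
    (hy : y0.length = y1.length) (hne : x0 ≠ x1 ∨ y0 ≠ y1) (s s' : List Bool)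
    (hs : s.length = s'.length)
    (h : Zw u v z x0 x1 y0 y1 s = Zw u v z x0 x1 y0 y1 s') : s = s' := by
  unfold Zw at h
  have h1 := List.append_cancel_left h
  obtain ⟨h2, h3⟩ := List.append_inj h1 (by rw [length_Xw hx, length_Xw hx, hs])
  have h4 := List.append_cancel_left h3
  obtain ⟨h5, _⟩ := List.append_inj h4 (by rw [length_Yw hy, length_Yw hy, hs])
  exact inj_blocks hx hy hne s s' hs h2 h5

open ContextFreeGrammar in
theorem loop_blocks {g : ContextFreeGrammar T} {A : g.NT} {x0 x1 y0 y1 : List T}
    (h0 : Loop g A x0 y0) (h1 : Loop g A x1 y1) (s : List Bool) :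
    Loop g A (Xw x0 x1 s) (Yw y0 y1 s) := by
  induction s with
  | nil => exact Loop.nil A
  | cons b s ih =>
    cases b
    · exact h0.comp ih
    · exact h1.comp ih

open ContextFreeGrammar in
theorem Zw_mem {g : ContextFreeGrammar T} {A : g.NT} {x0 x1 y0 y1 u v z : List T}
    (hu : g.Derives [Symbol.nonterminal g.initial]
      (u.map Symbol.terminal ++ [Symbol.nonterminal A] ++ v.map Symbol.terminal))
    (hz : g.Derives [Symbol.nonterminal A] (z.map Symbol.terminal))
    (h0 : Loop g A x0 y0) (h1 : Loop g A x1 y1) (s : List Bool) :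
    Zw u v z x0 x1 y0 y1 s ∈ g.language := by
  have h2 := loop_blocks h0 h1 s
  unfold Loop at h2
  show g.Derives [Symbol.nonterminal g.initial] _
  refine hu.trans ?_
  have h3 := (h2.append_left (u.map Symbol.terminal)).append_right (v.map Symbol.terminal)
  have h4 := (hz.append_left (u.map Symbol.terminal ++ (Xw x0 x1 s).map Symbol.terminal)).append_right
    ((Yw y0 y1 s).map Symbol.terminal ++ v.map Symbol.terminal)
  refine h3.trans ?_
  simpa [Zw] using h4

/-- The number of ordered representations `n = a + b` with `a, b ∈ A`. -/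
noncomputable def rep (A : Set ℕ) (n : ℕ) : ℕ :=
  Set.ncard {p : ℕ × ℕ | p.1 ∈ A ∧ p.2 ∈ A ∧ p.1 + p.2 = n}

theorem repSet_finite (A : Set ℕ) (n : ℕ) :
    {p : ℕ × ℕ | p.1 ∈ A ∧ p.2 ∈ A ∧ p.1 + p.2 = n}.Finite := by
  refine (Finset.HasAntidiagonal.antidiagonal n).finite_toSet.subset ?_
  rintro ⟨a, b⟩ ⟨_, _, h⟩
  simpa using h

theorem rep_le (A : Set ℕ) (n : ℕ) : rep A n ≤ n + 1 := by
  have h1 : {p : ℕ × ℕ | p.1 ∈ A ∧ p.2 ∈ A ∧ p.1 + p.2 = n} ⊆
      (Finset.HasAntidiagonal.antidiagonal n : Set (ℕ × ℕ)) := by
    rintro ⟨a, b⟩ ⟨_, _, h⟩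
    simpa using h
  refine (Set.ncard_le_ncard h1 (Finset.finite_toSet _)).trans ?_
  rw [Set.ncard_coe_finset, Finset.Nat.card_antidiagonal]

theorem two_pow_le_rep {A : Set ℕ} {L : Set (List T)} {W : ℕ → T → ℕ}
    (hinj : Set.InjOn (value W) L) (hmaps : Set.MapsTo (value W) L A)
    {u v z x0 x1 y0 y1 : List T} (hx : x0.length = x1.length)
    (hy : y0.length = y1.length) (hne : x0 ≠ x1 ∨ y0 ≠ y1)
    (hmem : ∀ s, Zw u v z x0 x1 y0 y1 s ∈ L) (n : ℕ) :
    2 ^ n ≤ rep A (value W (Zw u v z x0 x1 y0 y1 (List.replicate n false)) +
      value W (Zw u v z x0 x1 y0 y1 (List.replicate n true))) := by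
  classical
  set K := value W (Zw u v z x0 x1 y0 y1 (List.replicate n false)) +
      value W (Zw u v z x0 x1 y0 y1 (List.replicate n true)) with hK
  let f : (Fin n → Bool) → ℕ × ℕ := fun s =>
    (value W (Zw u v z x0 x1 y0 y1 (List.ofFn s)),
      value W (Zw u v z x0 x1 y0 y1 ((List.ofFn s).map not)))
  have hf : Function.Injective f := by
    intro s s' h
    have h1 : value W (Zw u v z x0 x1 y0 y1 (List.ofFn s)) =
        value W (Zw u v z x0 x1 y0 y1 (List.ofFn s')) := congrArg Prod.fst h
    have h2 := hinj (hmem _) (hmem _) h1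
    have h3 := inj_Zw hx hy hne _ _ (by simp) h2
    exact List.ofFn_injective h3
  have hsub : Set.range f ⊆ {p : ℕ × ℕ | p.1 ∈ A ∧ p.2 ∈ A ∧ p.1 + p.2 = K} := by
    rintro _ ⟨s, rfl⟩
    refine ⟨hmaps (hmem _), hmaps (hmem _), ?_⟩
    have := value_Zw (u := u) (v := v) (z := z) hx hy W (List.ofFn s)
    rw [List.length_ofFn] at this
    exact this
  have h1 := Set.ncard_le_ncard hsub (repSet_finite A K)
  have h2 : (Set.range f).ncard = 2 ^ n := by
    rw [← Set.image_univ, Set.ncard_image_of_injective _ hf, Set.ncard_univ,
      Nat.card_eq_fintype_card]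
    simp
  rw [h2] at h1
  exact h1

end Pool.Agent.H966R2.CF
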