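import Mathlib

/-!
Decomposable circuits (nonuniform grammars) and the additive energy of the sets they accept.
-/

set_option autoImplicit false

namespace Pool.Agent.H966R2.Circ

open Finset

/-- `r_A(x)`, ordered pairs -/
noncomputable def repCount (A : Set ℕ) (x : ℕ) : ℕ :=
  Set.ncard {p : ℕ × ℕ | p.1 ∈ A ∧ p.2 ∈ A ∧ p.1 + p.2 = x}

/-- The gates of a circuit whose set of gates is `ι`, in the variables `w 0, ..., w (n - 1)` with
values in `{0, ..., q - 1}`: the constant true gate, a condition on one variable, a disjunction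
(of any set of gates), a conjunction of two gates. -/
inductive Gate (n q : ℕ) (ι : Type)
  | tt : Gate n q ι
  | lit (i : Fin n) (D : Set (Fin q)) : Gate n q ι
  | or (c : Set ι) : Gate n q ι
  | and (c d : ι) : Gate n q ι

variable {n q : ℕ} {ι : Type}

/-- the gate `g` of the circuit `C` accepts the word `w` -/
inductive Acc (C : ι → Gate n q ι) (w : Fin n → Fin q) : ι → Prop
  | tt {g : ι} (h : C g = .tt) : Acc C w g
  | lit {g : ι} {i : Fin n} {D : Set (Fin q)} (h : C g = .lit i D) (hw : w i ∈ D) : Acc C w g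
  | or {g : ι} {c : Set ι} (h : C g = .or c) {k : ι} (hk : k ∈ c) (hw : Acc C w k) : Acc C w g
  | and {g c d : ι} (h : C g = .and c d) (hc : Acc C w c) (hd : Acc C w d) : Acc C w g

/-- the variable `i` occurs in the part of the circuit `C` below the gate `g` -/
inductive Uses (C : ι → Gate n q ι) (i : Fin n) : ι → Prop
  | lit {g : ι} {D : Set (Fin q)} (h : C g = .lit i D) : Uses C i g
  | or {g : ι} {c : Set ι} (h : C g = .or c) {k : ι} (hk : k ∈ c) (hu : Uses C i k) : Uses C i g
  | left {g c d : ι} (h : C g = .and c d) (hu : Uses C i c) : Uses C i g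
  | right {g c d : ι} (h : C g = .and c d) (hu : Uses C i d) : Uses C i g

/-- The circuit is decomposable: the two inputs of a conjunction have no variable in common. -/
def Decomposable (C : ι → Gate n q ι) : Prop :=
  ∀ g c d : ι, C g = .and c d → ∀ i : Fin n, ¬ (Uses C i c ∧ Uses C i d)

section forest

open Classical in
/-- the variables below a gate -/
noncomputable def V (C : ι → Gate n q ι) (g : ι) : Finset (Fin n) :=
  univ.filter fun i => Uses C i g

theorem mem_V {C : ι → Gate n q ι} {g : ι} {i : Fin n} : i ∈ V C g ↔ Uses C i g := by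
  simp [V]

/-- partial derivations, with a list of hanging gates -/
inductive Open (C : ι → Gate n q ι) (w : Fin n → Fin q) : ι → List ι → Prop
  | hang (g : ι) : Open C w g [g]
  | tt {g : ι} (h : C g = .tt) : Open C w g []
  | lit {g : ι} {i : Fin n} {D : Set (Fin q)} (h : C g = .lit i D) (hw : w i ∈ D) : Open C w g []
  | or {g : ι} {c : Set ι} (h : C g = .or c) {k : ι} (hk : k ∈ c) {Q : List ι}
      (hw : Open C w k Q) : Open C w g Q
  | and {g c d : ι} (h : C g = .and c d) {Q R : List ι} (hc : Open C w c Q)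
      (hd : Open C w d R) : Open C w g (Q ++ R)

theorem acc_of_open {C : ι → Gate n q ι} {w : Fin n → Fin q} {g : ι} {Q : List ι}
    (h : Open C w g Q) (hQ : ∀ k ∈ Q, Acc C w k) : Acc C w g := by
  induction h with
  | hang g => exact hQ g (by simp)
  | tt h => exact Acc.tt h
  | lit h hw => exact Acc.lit h hw
  | or h hk _ ih => exact Acc.or h hk (ih hQ)
  | and h _ _ ih1 ih2 =>
    exact Acc.and h (ih1 fun k hk => hQ k (List.mem_append_left _ hk))
      (ih2 fun k hk => hQ k (List.mem_append_right _ hk))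

theorem uses_of_open {C : ι → Gate n q ι} {w : Fin n → Fin q} {g : ι} {Q : List ι}
    (h : Open C w g Q) {k : ι} (hk : k ∈ Q) {i : Fin n} (hi : Uses C i k) : Uses C i g := by
  induction h with
  | hang g => rw [List.mem_singleton] at hk; rw [← hk]; exact hi
  | tt h => simp at hk
  | lit h hw => simp at hk
  | or h hk' _ ih => exact Uses.or h hk' (ih hk)
  | and h _ _ ih1 ih2 =>
    rcases List.mem_append.1 hk with hk | hk
    · exact Uses.left h (ih1 hk)
    · exact Uses.right h (ih2 hk)

theorem open_local {C : ι → Gate n q ι} (hC : Decomposable C) {w w' : Fin n → Fin q} {g : ι}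
    {Q : List ι} (h : Open C w g Q)
    (hw : ∀ i, Uses C i g → (∀ k ∈ Q, ¬ Uses C i k) → w' i = w i) : Open C w' g Q := by
  induction h with
  | hang g => exact Open.hang g
  | tt h => exact Open.tt h
  | @lit g i D h hwi =>
    refine Open.lit h ?_
    rw [hw i (Uses.lit h) (by simp)]
    exact hwi
  | or h hk _ ih => exact Open.or h hk (ih fun i hi hQ => hw i (Uses.or h hk hi) hQ)
  | @and g c d h Q R hc hd ih1 ih2 =>
    refine Open.and h (ih1 fun i hi hQ => hw i (Uses.left h hi) ?_)
      (ih2 fun i hi hR => hw i (Uses.right h hi) ?_)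
    · intro k hk
      rcases List.mem_append.1 hk with hk | hk
      · exact hQ k hk
      · intro hu
        exact hC g c d h i ⟨hi, uses_of_open hd hk hu⟩
    · intro k hk
      rcases List.mem_append.1 hk with hk | hk
      · intro hu
        exact hC g c d h i ⟨uses_of_open hc hk hu, hi⟩
      · exact hR k hk

/-- ordered forests with nodes labelled by gates (first child, next sibling) -/
inductive Forest (ι : Type)
  | nil : Forest ι
  | node (h : ι) (β ρ : Forest ι) : Forest ι

namespace Forest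

def heads : Forest ι → List ι
  | nil => []
  | node h _ ρ => h :: heads ρ

def app : Forest ι → Forest ι → Forest ι
  | nil, τ => τ
  | node h β ρ, τ => node h β (app ρ τ)

def size : Forest ι → ℕ
  | nil => 0
  | node _ β ρ => 1 + size β + size ρ

noncomputable def cov (C : ι → Gate n q ι) : Forest ι → Finset (Fin n)
  | nil => ∅
  | node h _ ρ => V C h ∪ cov C ρ

def Sem (C : ι → Gate n q ι) (w : Fin n → Fin q) : Forest ι → Prop
  | nil => True
  | node h β ρ => Open C w h (heads β) ∧ Sem C w β ∧ Sem C w ρ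

def Nice (C : ι → Gate n q ι) : Forest ι → Prop
  | nil => True
  | node h β ρ => cov C β ⊆ V C h ∧ Nice C β ∧ Nice C ρ ∧ Disjoint (V C h) (cov C ρ)

open Classical in
noncomputable def lab (C : ι → Gate n q ι) : Forest ι → Fin n → List Bool
  | nil, _ => []
  | node h β ρ, i => if i ∈ V C h then false :: lab C β i else true :: lab C ρ i

/-- all pieces have between `K + 1` and `2 K` variables of `t` -/
def OK (C : ι → Gate n q ι) (K : ℕ) (t : Finset (Fin n)) : Forest ι → Prop
  | nil => True
  | node h β ρ => K < ((V C h \ cov C β) ∩ t).card ∧ ((V C h \ cov C β) ∩ t).card ≤ 2 * K ∧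
      OK C K t β ∧ OK C K t ρ

theorem heads_app (σ τ : Forest ι) : heads (app σ τ) = heads σ ++ heads τ := by
  induction σ with
  | nil => rfl
  | node h β ρ _ ih => simp [app, heads, ih]

theorem size_app (σ τ : Forest ι) : size (app σ τ) = size σ + size τ := by
  induction σ with
  | nil => simp [app, size]
  | node h β ρ _ ih => simp [app, size, ih]; omega

theorem cov_app (C : ι → Gate n q ι) (σ τ : Forest ι) :
    cov C (app σ τ) = cov C σ ∪ cov C τ := by
  induction σ with
  | nil => simp [app, cov]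
  | node h β ρ _ ih => simp [app, cov, ih, Finset.union_assoc]

theorem sem_app {C : ι → Gate n q ι} {w : Fin n → Fin q} {σ τ : Forest ι} (h1 : Sem C w σ)
    (h2 : Sem C w τ) : Sem C w (app σ τ) := by
  induction σ with
  | nil => exact h2
  | node h β ρ _ ih => exact ⟨h1.1, h1.2.1, ih h1.2.2⟩

theorem nice_app {C : ι → Gate n q ι} {σ τ : Forest ι} (h1 : Nice C σ)
    (h2 : Nice C τ) (h3 : Disjoint (cov C σ) (cov C τ)) : Nice C (app σ τ) := by
  induction σ with
  | nil => exact h2
  | node h β ρ _ ih =>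
    simp only [cov] at h3
    rw [Finset.disjoint_union_left] at h3
    refine ⟨h1.1, h1.2.1, ih h1.2.2.1 h3.2, ?_⟩
    rw [cov_app, Finset.disjoint_union_right]
    exact ⟨h1.2.2.2, h3.1⟩

theorem ok_app {C : ι → Gate n q ι} {K : ℕ} {t : Finset (Fin n)} {σ τ : Forest ι}
    (h1 : OK C K t σ) (h2 : OK C K t τ) : OK C K t (app σ τ) := by
  induction σ with
  | nil => exact h2
  | node h β ρ _ ih => exact ⟨h1.1, h1.2.1, h1.2.2.1, ih h1.2.2.2⟩

theorem ok_congr {C : ι → Gate n q ι} {K : ℕ} {t t' : Finset (Fin n)} {σ : Forest ι}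
    (hN : Nice C σ) (ht : ∀ i ∈ cov C σ, i ∈ t ↔ i ∈ t') (h1 : OK C K t σ) : OK C K t' σ := by
  induction σ with
  | nil => trivial
  | node h β ρ ih1 ih2 =>
    simp only [cov, Finset.mem_union] at ht
    obtain ⟨hc, hNβ, hNρ, _⟩ := hN
    obtain ⟨h2, h3, h4, h5⟩ := h1
    have e : (V C h \ cov C β) ∩ t' = (V C h \ cov C β) ∩ t := by
      ext i
      simp only [Finset.mem_inter, Finset.mem_sdiff]
      constructor
      · rintro ⟨⟨a, b⟩, c⟩
        exact ⟨⟨a, b⟩, (ht i (Or.inl a)).2 c⟩
      · rintro ⟨⟨a, b⟩, c⟩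
        exact ⟨⟨a, b⟩, (ht i (Or.inl a)).1 c⟩
    refine ⟨by rw [e]; exact h2, by rw [e]; exact h3, ih1 hNβ (fun i hi => ht i (Or.inl (hc hi))) h4,
      ih2 hNρ (fun i hi => ht i (Or.inr hi)) h5⟩

theorem acc_of_sem {C : ι → Gate n q ι} {w : Fin n → Fin q} {σ : Forest ι} (h : Sem C w σ) :
    ∀ k ∈ heads σ, Acc C w k := by
  induction σ with
  | nil => simp [heads]
  | node g β ρ ih1 ih2 =>
    intro k hk
    simp only [heads, List.mem_cons] at hk
    rcases hk with rfl | hk
    · exact acc_of_open h.1 (ih1 h.2.1)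
    · exact ih2 h.2.2 k hk

theorem mem_cov_of_head {C : ι → Gate n q ι} {σ : Forest ι} {k : ι} (hk : k ∈ heads σ)
    {i : Fin n} (hi : Uses C i k) : i ∈ cov C σ := by
  induction σ with
  | nil => simp [heads] at hk
  | node g β ρ _ ih2 =>
    simp only [heads, List.mem_cons] at hk
    simp only [cov, Finset.mem_union]
    rcases hk with rfl | hk
    · exact Or.inl (mem_V.2 hi)
    · exact Or.inr (ih2 hk)

theorem not_uses_iff {C : ι → Gate n q ι} {σ : Forest ι} {i : Fin n} :
    (∀ k ∈ heads σ, ¬ Uses C i k) ↔ i ∉ cov C σ := by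
  induction σ with
  | nil => simp [heads, cov]
  | node g β ρ _ ih2 =>
    simp only [heads, List.mem_cons, forall_eq_or_imp, cov, Finset.mem_union, not_or, ih2, mem_V]

theorem lab_of_notMem {C : ι → Gate n q ι} {σ : Forest ι} {i : Fin n} (hi : i ∉ cov C σ) :
    lab C σ i = List.replicate (heads σ).length true := by
  induction σ with
  | nil => rfl
  | node g β ρ _ ih2 =>
    simp only [cov, Finset.mem_union, not_or] at hi
    simp only [lab, heads, List.length_cons, List.replicate_succ, if_neg hi.1, ih2 hi.2]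

/-- exchange inside one class -/
theorem sem_exchange {C : ι → Gate n q ι} (hC : Decomposable C) {κ : Type*} (P : Fin n → κ)
    (j : κ) {u v w : Fin n → Fin q} (hwu : ∀ i, P i = j → w i = u i)
    (hwv : ∀ i, P i ≠ j → w i = v i) (σ : Forest ι) :
    ∀ (U : Finset (Fin n)) (e : List Bool → κ), (∀ i ∈ U, P i = e (lab C σ i)) →
      cov C σ ⊆ U → Nice C σ → Sem C u σ → Sem C v σ → Sem C w σ := by
  induction σ with
  | nil => intros; trivial
  | node h β ρ ih1 ih2 =>
    intro U e he hcov hN hu hv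
    obtain ⟨hc, hNβ, hNρ, hdis⟩ := hN
    simp only [cov] at hcov
    have hVU : V C h ⊆ U := fun i hi => hcov (Finset.mem_union_left _ hi)
    refine ⟨?_, ?_, ?_⟩
    · have hmono : ∀ i, Uses C i h → (∀ k ∈ heads β, ¬ Uses C i k) →
          P i = e (false :: List.replicate (heads β).length true) := by
        intro i hi hk
        have hiV : i ∈ V C h := mem_V.2 hi
        rw [he i (hVU hiV)]
        simp only [lab, if_pos hiV]
        rw [lab_of_notMem (not_uses_iff.1 hk)]
      by_cases hj : e (false :: List.replicate (heads β).length true) = j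
      · exact open_local hC hu.1 fun i hi hk => hwu i (by rw [hmono i hi hk, hj])
      · exact open_local hC hv.1 fun i hi hk => hwv i (by rw [hmono i hi hk]; exact hj)
    · refine ih1 (V C h) (fun l => e (false :: l)) ?_ hc hNβ hu.2.1 hv.2.1
      intro i hi
      rw [he i (hVU hi)]
      simp only [lab, if_pos hi]
    · refine ih2 (U \ V C h) (fun l => e (true :: l)) ?_ ?_ hNρ hu.2.2 hv.2.2
      · intro i hi
        rw [Finset.mem_sdiff] at hi
        rw [he i hi.1]
        simp only [lab, if_neg hi.2]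
      · intro i hi
        rw [Finset.mem_sdiff]
        exact ⟨hcov (Finset.mem_union_right _ hi), fun h' => Finset.disjoint_left.1 hdis h' hi⟩

theorem class_small {C : ι → Gate n q ι} {K : ℕ} {t : Finset (Fin n)} (σ : Forest ι) :
    ∀ (U : Finset (Fin n)) (j : List Bool), cov C σ ⊆ U → Nice C σ → OK C K t σ →
      ((U \ cov C σ) ∩ t).card ≤ 2 * K →
      ((U ∩ t).filter fun i => lab C σ i = j).card ≤ 2 * K := by
  induction σ with
  | nil =>
    intro U j _ _ _ h
    refine (Finset.card_le_card (Finset.filter_subset _ _)).trans ?_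
    simpa [cov] using h
  | node h β ρ ih1 ih2 =>
    intro U j hcov hN hOK hU
    obtain ⟨hc, hNβ, hNρ, hdis⟩ := hN
    obtain ⟨_, h3, h4, h5⟩ := hOK
    simp only [cov] at hcov hU
    rcases j with _ | ⟨_ | _, j⟩
    · have : ((U ∩ t).filter fun i => lab C (node h β ρ) i = []) = ∅ := by
        rw [Finset.filter_eq_empty_iff]
        intro i _
        simp only [lab]
        split_ifs <;> simp
      rw [this]
      simp
    · refine (Finset.card_le_card ?_).trans (ih1 (V C h) j hc hNβ h4 h3)
      intro i hi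
      rw [Finset.mem_filter, Finset.mem_inter] at hi ⊢
      obtain ⟨⟨hiU, hit⟩, hl⟩ := hi
      simp only [lab] at hl
      by_cases hiV : i ∈ V C h
      · rw [if_pos hiV] at hl
        exact ⟨⟨hiV, hit⟩, (List.cons.inj hl).2⟩
      · rw [if_neg hiV] at hl
        simp at hl
    · refine (Finset.card_le_card ?_).trans (ih2 (U \ V C h) j ?_ hNρ h5 ?_)
      · intro i hi
        rw [Finset.mem_filter, Finset.mem_inter] at hi ⊢
        rw [Finset.mem_sdiff]
        obtain ⟨⟨hiU, hit⟩, hl⟩ := hi
        simp only [lab] at hl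
        by_cases hiV : i ∈ V C h
        · rw [if_pos hiV] at hl
          simp at hl
        · rw [if_neg hiV] at hl
          exact ⟨⟨⟨hiU, hiV⟩, hit⟩, (List.cons.inj hl).2⟩
      · intro i hi
        rw [Finset.mem_sdiff]
        exact ⟨hcov (Finset.mem_union_right _ hi), fun h' => Finset.disjoint_left.1 hdis h' hi⟩
      · refine (Finset.card_le_card ?_).trans hU
        intro i hi
        simp only [Finset.mem_inter, Finset.mem_sdiff, Finset.mem_union, not_or] at hi ⊢
        exact ⟨⟨hi.1.1.1, hi.1.1.2, hi.1.2⟩, hi.2⟩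

end Forest

open Forest

theorem mem_V_and {C : ι → Gate n q ι} {g c d : ι} (h : C g = .and c d) {i : Fin n} :
    i ∈ V C g ↔ i ∈ V C c ∨ i ∈ V C d := by
  simp only [mem_V]
  constructor
  · intro hi
    cases hi with
    | lit h' => rw [h] at h'; cases h'
    | or h' _ _ => rw [h] at h'; cases h'
    | left h' hu => rw [h] at h'; cases h'; exact Or.inl hu
    | right h' hu => rw [h] at h'; cases h'; exact Or.inr hu
  · rintro (hi | hi)
    · exact Uses.left h hi
    · exact Uses.right h hi

/-- cutting a derivation into pieces -/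
theorem exists_forest {C : ι → Gate n q ι} (hC : Decomposable C) {K : ℕ} (hK : 1 ≤ K)
    {w : Fin n → Fin q} {g : ι} (h : Acc C w g) :
    ∃ (σ : Forest ι) (t : Finset (Fin n)), t ⊆ V C g ∧ Open C w g (heads σ) ∧ Sem C w σ ∧
      Nice C σ ∧ cov C σ ⊆ V C g ∧ OK C K t σ ∧ ((V C g \ cov C σ) ∩ t).card ≤ K ∧
      (K + 1) * size σ ≤ (cov C σ ∩ t).card ∧
      ∀ w' : Fin n → Fin q, (∀ i ∈ t, w' i = w i) → Acc C w' g := by
  classical
  induction h with
  | tt h =>
    exact ⟨nil, ∅, by simp, Open.tt h, trivial, trivial, by simp [cov], trivial, by simp,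
      by simp [size], fun w' _ => Acc.tt h⟩
  | @lit g i D h hw =>
    refine ⟨nil, {i}, ?_, Open.lit h hw, trivial, trivial, by simp [cov], trivial, ?_,
      by simp [size], fun w' hw' => Acc.lit h (by rw [hw' i (by simp)]; exact hw)⟩
    · intro j hj
      rw [Finset.mem_singleton] at hj
      subst hj
      exact mem_V.2 (Uses.lit h)
    · refine (Finset.card_le_card Finset.inter_subset_right).trans ?_
      simpa using hK
  | @or g c h k hk _ ih =>
    obtain ⟨σ, t, h1, h2, h3, h4, h5, h6, h7, h8, h9⟩ := ih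
    have hsub : V C k ⊆ V C g := fun i hi => mem_V.2 (Uses.or h hk (mem_V.1 hi))
    refine ⟨σ, t, h1.trans hsub, Open.or h hk h2, h3, h4, h5.trans hsub, h6, ?_, h8,
      fun w' hw' => Acc.or h hk (h9 w' hw')⟩
    refine (Finset.card_le_card ?_).trans h7
    intro i hi
    simp only [Finset.mem_inter, Finset.mem_sdiff] at hi ⊢
    exact ⟨⟨h1 hi.2, hi.1.2⟩, hi.2⟩
  | @and g c d h _ _ ih1 ih2 =>
    obtain ⟨σ, t, h1, h2, h3, h4, h5, h6, h7, h8, h9⟩ := ih1
    obtain ⟨σ', t', h1', h2', h3', h4', h5', h6', h7', h8', h9'⟩ := ih2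
    have hdis : ∀ i, i ∈ V C c → i ∉ V C d := fun i hi hi' =>
      hC g c d h i ⟨mem_V.1 hi, mem_V.1 hi'⟩
    have hcd : Disjoint (cov C σ) (cov C σ') :=
      Finset.disjoint_left.2 fun i hi hi' => hdis i (h5 hi) (h5' hi')
    set τ := app σ σ' with hτ
    set T := t ∪ t' with hT
    have hTt : ∀ i, i ∈ V C c → (i ∈ t ↔ i ∈ T) := by
      intro i hi
      rw [hT, Finset.mem_union]
      exact ⟨Or.inl, fun h' => h'.resolve_right fun h'' => hdis i hi (h1' h'')⟩
    have hTt' : ∀ i, i ∈ V C d → (i ∈ t' ↔ i ∈ T) := by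
      intro i hi
      rw [hT, Finset.mem_union]
      exact ⟨Or.inr, fun h' => h'.resolve_left fun h'' => hdis i (h1 h'') hi⟩
    have hcovτ : cov C τ = cov C σ ∪ cov C σ' := cov_app C σ σ'
    have a1 : T ⊆ V C g := by
      intro i hi
      rw [mem_V_and h]
      rcases Finset.mem_union.1 hi with hi | hi
      · exact Or.inl (h1 hi)
      · exact Or.inr (h1' hi)
    have a2 : Open C w g (heads τ) := by
      rw [hτ, heads_app]
      exact Open.and h h2 h2'
    have a3 : Sem C w τ := sem_app h3 h3'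
    have a4 : Nice C τ := nice_app h4 h4' hcd
    have a5 : cov C τ ⊆ V C g := by
      intro i hi
      rw [hcovτ] at hi
      rw [mem_V_and h]
      rcases Finset.mem_union.1 hi with hi | hi
      · exact Or.inl (h5 hi)
      · exact Or.inr (h5' hi)
    have a6 : OK C K T τ := ok_app (ok_congr h4 (fun i hi => hTt i (h5 hi)) h6)
      (ok_congr h4' (fun i hi => hTt' i (h5' hi)) h6')
    have a7 : ((V C g \ cov C τ) ∩ T).card ≤ 2 * K := by
      have hsub : (V C g \ cov C τ) ∩ T ⊆
          ((V C c \ cov C σ) ∩ t) ∪ ((V C d \ cov C σ') ∩ t') := by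
        intro i hi
        simp only [Finset.mem_inter, Finset.mem_sdiff, Finset.mem_union, hcovτ, not_or,
          mem_V_and h] at hi ⊢
        obtain ⟨⟨hV, hn1, hn2⟩, hiT⟩ := hi
        rcases hV with hV | hV
        · exact Or.inl ⟨⟨hV, hn1⟩, (hTt i hV).2 hiT⟩
        · exact Or.inr ⟨⟨hV, hn2⟩, (hTt' i hV).2 hiT⟩
      refine (Finset.card_le_card hsub).trans ((Finset.card_union_le _ _).trans ?_)
      omega
    have a8 : (K + 1) * size τ ≤ (cov C τ ∩ T).card := by
      have e : cov C τ ∩ T = (cov C σ ∩ t) ∪ (cov C σ' ∩ t') := by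
        ext i
        simp only [Finset.mem_inter, Finset.mem_union, hcovτ]
        constructor
        · rintro ⟨hi | hi, hiT⟩
          · exact Or.inl ⟨hi, (hTt i (h5 hi)).2 hiT⟩
          · exact Or.inr ⟨hi, (hTt' i (h5' hi)).2 hiT⟩
        · rintro (⟨hi, hit⟩ | ⟨hi, hit⟩)
          · exact ⟨Or.inl hi, (hTt i (h5 hi)).1 hit⟩
          · exact ⟨Or.inr hi, (hTt' i (h5' hi)).1 hit⟩
      rw [e, Finset.card_union_of_disjoint, hτ, size_app, mul_add]
      · exact Nat.add_le_add h8 h8'
      · exact Finset.disjoint_left.2 fun i hi hi' =>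
          Finset.disjoint_left.1 hcd (Finset.mem_inter.1 hi).1 (Finset.mem_inter.1 hi').1
    have a9 : ∀ w' : Fin n → Fin q, (∀ i ∈ T, w' i = w i) → Acc C w' g := fun w' hw' =>
      Acc.and h (h9 w' fun i hi => hw' i (Finset.mem_union_left _ hi))
        (h9' w' fun i hi => hw' i (Finset.mem_union_right _ hi))
    by_cases hsmall : ((V C g \ cov C τ) ∩ T).card ≤ K
    · exact ⟨τ, T, a1, a2, a3, a4, a5, a6, hsmall, a8, a9⟩
    · push Not at hsmall
      refine ⟨node g τ nil, T, a1, Open.hang g, ⟨a2, a3, trivial⟩,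
        ⟨a5, a4, trivial, by simp [cov]⟩, by simp [cov], ⟨hsmall, a7, a6, trivial⟩, by simp [cov],
        ?_, a9⟩
      have e : cov C (node g τ nil) ∩ T = ((V C g \ cov C τ) ∩ T) ∪ (cov C τ ∩ T) := by
        ext i
        simp only [cov, Finset.mem_inter, Finset.mem_union, Finset.mem_sdiff,
          Finset.notMem_empty, or_false]
        constructor
        · rintro ⟨hi, hiT⟩
          by_cases hi2 : i ∈ cov C τ
          · exact Or.inr ⟨hi2, hiT⟩
          · exact Or.inl ⟨⟨hi, hi2⟩, hiT⟩
        · rintro (⟨⟨hi, _⟩, hiT⟩ | ⟨hi, hiT⟩)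
          · exact ⟨hi, hiT⟩
          · exact ⟨a5 hi, hiT⟩
      rw [e, Finset.card_union_of_disjoint]
      · simp only [size]
        have : (K + 1) * (1 + size τ + 0) = (K + 1) + (K + 1) * size τ := by ring
        rw [this]
        exact Nat.add_le_add hsmall a8
      · exact Finset.disjoint_left.2 fun i hi hi' => by
          simp only [Finset.mem_inter, Finset.mem_sdiff] at hi hi'
          exact hi.1.2 hi'.1

end forest

section count

open Forest

/-- code of a forest -/
def Forest.code : Forest ι → List (Option ι)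
  | .nil => []
  | .node h β ρ => some h :: (code β ++ none :: code ρ)

theorem code_length (σ : Forest ι) : (code σ).length = 2 * size σ := by
  induction σ with
  | nil => rfl
  | node h β ρ ih1 ih2 =>
    simp only [code, size, List.length_cons, List.length_append, ih1, ih2]
    ring

theorem code_inj (σ : Forest ι) : ∀ (σ' : Forest ι) (l l' : List (Option ι)),
    code σ ++ none :: l = code σ' ++ none :: l' → σ = σ' ∧ l = l' := by
  induction σ with
  | nil =>
    intro σ' l l' h
    cases σ' with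
    | nil => simpa [code] using h
    | node h' β' ρ' => simp [code] at h
  | node g β ρ ih1 ih2 =>
    intro σ' l l' h
    cases σ' with
    | nil => simp [code] at h
    | node g' β' ρ' =>
      simp only [code, List.cons_append, List.append_assoc, List.cons.injEq,
        Option.some.injEq] at h
      obtain ⟨h1, h2⟩ := h
      obtain ⟨h3, h4⟩ := ih1 β' _ _ h2
      obtain ⟨h5, h6⟩ := ih2 ρ' _ _ h4
      exact ⟨by rw [h1, h3, h5], h6⟩

theorem card_forests [Fintype ι] (r : ℕ) (S : Finset (Forest ι)) (hS : ∀ σ ∈ S, size σ ≤ r) :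
    S.card ≤ (Fintype.card ι + 1) ^ (2 * r) := by
  have h1 : Fintype.card (List.Vector (Option ι) (2 * r)) = (Fintype.card ι + 1) ^ (2 * r) := by
    rw [card_vector, Fintype.card_option]
  rw [← h1, ← Fintype.card_coe]
  refine Fintype.card_le_of_injective (fun σ : S =>
    (⟨code σ.1 ++ List.replicate (2 * r - 2 * size σ.1) none, by
      have := hS σ.1 σ.2
      rw [List.length_append, code_length, List.length_replicate]
      omega⟩ : List.Vector (Option ι) (2 * r))) ?_
  intro σ σ' h
  have h2 := congrArg Subtype.val h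
  simp only at h2
  have h3 : code σ.1 ++ none :: List.replicate (2 * r - 2 * size σ.1) none =
      code σ'.1 ++ none :: List.replicate (2 * r - 2 * size σ'.1) none := by
    have e : ∀ k : ℕ, (none : Option ι) :: List.replicate k none = List.replicate k none ++ [none] := by
      intro k
      rw [← List.replicate_succ, List.replicate_succ']
    rw [e, e, ← List.append_assoc, ← List.append_assoc, h2]
  exact Subtype.ext (code_inj _ _ _ _ h3).1

end count

section box

/-- the value of a word for the weights `wt` -/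
def value (wt : Fin n → Fin q → ℕ) (w : Fin n → Fin q) : ℕ := ∑ i, wt i (w i)

variable {κ : Type*}

/-- `W` is a box for the partition `P` of the positions into blocks: replacing one block of a word
of `W` by the same block of another word of `W` gives a word of `W`. -/
def IsBox (P : Fin n → κ) (W : Set (Fin n → Fin q)) : Prop :=
  ∀ u ∈ W, ∀ v ∈ W, ∀ j : κ, ∀ w : Fin n → Fin q,
    (∀ i, P i = j → w i = u i) → (∀ i, P i ≠ j → w i = v i) → w ∈ W

variable [DecidableEq κ] {P : Fin n → κ}

/-- the blocks on which `u` and `v` differ -/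
def dif (P : Fin n → κ) (u v : Fin n → Fin q) : Finset κ :=
  (univ.filter fun i => u i ≠ v i).image P

theorem mem_dif {u v : Fin n → Fin q} {j : κ} : j ∈ dif P u v ↔ ∃ i, P i = j ∧ u i ≠ v i := by
  simp only [dif, Finset.mem_image, Finset.mem_filter, Finset.mem_univ, true_and]
  exact ⟨fun ⟨i, h1, h2⟩ => ⟨i, h2, h1⟩, fun ⟨i, h1, h2⟩ => ⟨i, h2, h1⟩⟩

/-- `u` on the blocks of `T`, `v` elsewhere -/
def mix (P : Fin n → κ) (T : Finset κ) (u v : Fin n → Fin q) : Fin n → Fin q :=
  fun i => if P i ∈ T then u i else v i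

theorem mix_mem {W : Set (Fin n → Fin q)} (hW : IsBox P W) {u v : Fin n → Fin q} (hu : u ∈ W)
    (hv : v ∈ W) (T : Finset κ) : mix P T u v ∈ W := by
  induction T using Finset.induction_on with
  | empty =>
    have : mix P ∅ u v = v := by
      funext i
      simp [mix]
    rw [this]
    exact hv
  | insert j T hj ih =>
    refine hW u hu _ ih j _ (fun i hi => ?_) (fun i hi => ?_)
    · simp [mix, hi]
    · simp [mix, hi]

theorem pow_le_repr {A : Set ℕ} {W : Set (Fin n → Fin q)} (wt : Fin n → Fin q → ℕ)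
    (hinj : Set.InjOn (value wt) W) (hW : IsBox P W)
    (hA : ∀ w ∈ W, value wt w ∈ A) {u v : Fin n → Fin q} (hu : u ∈ W) (hv : v ∈ W) :
    2 ^ (dif P u v).card ≤ repCount A (value wt u + value wt v) := by
  classical
  rw [← Finset.card_powerset]
  have hfin : {p : ℕ × ℕ | p.1 ∈ A ∧ p.2 ∈ A ∧ p.1 + p.2 = value wt u + value wt v}.Finite := by
    refine ((Set.finite_Iic (value wt u + value wt v)).prod
      (Set.finite_Iic (value wt u + value wt v))).subset ?_
    rintro ⟨x, y⟩ ⟨_, _, h⟩
    simp only at h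
    exact ⟨by simp only [Set.mem_Iic]; omega, by simp only [Set.mem_Iic]; omega⟩
  rw [repCount, ← Set.ncard_coe_finset]
  refine Set.ncard_le_ncard_of_injOn
    (fun T => (value wt (mix P T u v), value wt (mix P T v u))) ?_ ?_ hfin
  · intro T _
    refine ⟨hA _ (mix_mem hW hu hv T), hA _ (mix_mem hW hv hu T), ?_⟩
    show value wt (mix P T u v) + value wt (mix P T v u) = value wt u + value wt v
    unfold value
    rw [← Finset.sum_add_distrib, ← Finset.sum_add_distrib]
    refine Finset.sum_congr rfl fun i _ => ?_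
    unfold mix
    by_cases h : P i ∈ T
    · simp [h]
    · simp [h, add_comm]
  · intro T hT T' hT' h
    simp only [Finset.coe_powerset, Set.mem_preimage, Set.mem_powerset_iff, Finset.coe_subset]
      at hT hT'
    have h1 : mix P T u v = mix P T' u v :=
      hinj (mix_mem hW hu hv T) (mix_mem hW hu hv T') (Prod.mk.inj h).1
    ext j
    have key : ∀ S S' : Finset κ, S ⊆ dif P u v → mix P S u v = mix P S' u v → j ∈ S → j ∈ S' := by
      intro S S' hS hSS hj
      obtain ⟨i, hi, hne⟩ := mem_dif.1 (hS hj)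
      by_contra hcon
      have h2 := congrFun hSS i
      unfold mix at h2
      rw [if_pos (by rw [hi]; exact hj), if_neg (by rw [hi]; exact hcon)] at h2
      exact hne h2
    exact ⟨key T T' hT h1, key T' T hT' h1.symm⟩

theorem box_small {W : Set (Fin n → Fin q)} (hW : IsBox P W) {M m : ℕ} (t : Finset (Fin n))
    (ht : ∀ j, (t.filter fun i => P i = j).card ≤ M) (htc : tᶜ.card ≤ m) (hq : 1 ≤ q)
    (hm : ∀ u ∈ W, ∀ v ∈ W, (dif P u v).card ≤ m) : W.ncard ≤ q ^ ((M + 1) * m) := by
  classical
  rcases W.eq_empty_or_nonempty with rfl | ⟨w0, hw0⟩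
  · simp
  -- maximal pair
  obtain ⟨⟨u, v⟩, huv, hmax⟩ := Set.Finite.exists_maximalFor
    (fun p : (Fin n → Fin q) × (Fin n → Fin q) => (dif P p.1 p.2).card) (W ×ˢ W)
    (Set.toFinite _) ⟨(w0, w0), hw0, hw0⟩
  obtain ⟨hu, hv⟩ := huv
  simp only at hu hv
  set D := dif P u v with hD
  have hagree : ∀ w ∈ W, ∀ i, P i ∉ D → w i = u i := by
    intro w hw i hi
    by_contra hne
    set v' : Fin n → Fin q := fun i' => if P i' = P i then w i' else v i' with hv'
    have hv'W : v' ∈ W := hW w hw v hv (P i) v' (fun i' hi' => by simp [hv', hi'])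
      (fun i' hi' => by simp [hv', hi'])
    have hsub : insert (P i) D ⊆ dif P u v' := by
      intro j hj
      rw [Finset.mem_insert] at hj
      rcases hj with rfl | hj
      · exact mem_dif.2 ⟨i, rfl, by simp only [hv', if_true]; exact fun h => hne h.symm⟩
      · obtain ⟨i', hi', hne'⟩ := mem_dif.1 hj
        refine mem_dif.2 ⟨i', hi', ?_⟩
        have : P i' ≠ P i := by
          intro h
          apply hi
          rw [← h, hi']
          exact hj
        simp only [hv', this, if_false]
        exact hne'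
    have h1 := Finset.card_le_card hsub
    rw [Finset.card_insert_of_notMem hi] at h1
    have h2 : (dif P u v').card ≤ D.card := by
      by_contra hcon
      push Not at hcon
      have := hmax (j := (u, v')) ⟨hu, hv'W⟩ hcon.le
      simp only [← hD] at this
      omega
    omega
  -- injection into words on the blocks of `D`
  have h1 : W.ncard ≤ Fintype.card ({i // P i ∈ D} → Fin q) := by
    rw [← Nat.card_eq_fintype_card, ← Set.ncard_univ]
    refine Set.ncard_le_ncard_of_injOn (fun w => fun i : {i // P i ∈ D} => w i.1)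
      (fun _ _ => Set.mem_univ _) ?_ (Set.toFinite _)
    intro w hw w' hw' h
    funext i
    by_cases hi : P i ∈ D
    · exact congrFun h ⟨i, hi⟩
    · rw [hagree w hw i hi, hagree w' hw' i hi]
  have h2 : Fintype.card ({i // P i ∈ D} → Fin q) = q ^ (univ.filter fun i => P i ∈ D).card := by
    rw [Fintype.card_fun, Fintype.card_fin, Fintype.card_subtype]
  have hDm : D.card ≤ m := hm u hu v hv
  have h3 : (univ.filter fun i => P i ∈ D).card ≤ m * M + m := by
    have h4 : (univ.filter fun i => P i ∈ D) ⊆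
        (D.biUnion fun j => t.filter fun i => P i = j) ∪ tᶜ := by
      intro i hi
      rw [Finset.mem_filter] at hi
      rw [Finset.mem_union]
      by_cases hit : i ∈ t
      · left
        rw [Finset.mem_biUnion]
        exact ⟨P i, hi.2, Finset.mem_filter.2 ⟨hit, rfl⟩⟩
      · right
        exact Finset.mem_compl.2 hit
    refine (Finset.card_le_card h4).trans ((Finset.card_union_le _ _).trans ?_)
    refine Nat.add_le_add ?_ htc
    refine (Finset.card_biUnion_le_card_mul _ _ _ fun j _ => ht j).trans ?_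
    exact Nat.mul_le_mul_right _ hDm
  rw [h2] at h1
  refine h1.trans (Nat.pow_le_pow_right hq (h3.trans (le_of_eq ?_)))
  ring

end box

open Forest

/-- words whose derivation from `g` is cut by the forest `τ` -/
def cutSet (C : ι → Gate n q ι) (g : ι) (τ : Forest ι) : Set (Fin n → Fin q) :=
  {w | Open C w g (heads τ) ∧ Sem C w τ}

theorem cutSet_isBox {C : ι → Gate n q ι} (hC : Decomposable C) (g : ι) {τ : Forest ι}
    (hN : Nice C τ) : IsBox (lab C τ) (cutSet C g τ) := by
  intro u hu v hv j w hwu hwv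
  refine ⟨?_, sem_exchange hC (lab C τ) j hwu hwv τ univ id (fun i _ => rfl)
    (Finset.subset_univ _) hN hu.2 hv.2⟩
  by_cases hj : List.replicate (heads τ).length true = j
  · exact open_local hC hu.1 fun i _ hk => hwu i (by rw [lab_of_notMem (not_uses_iff.1 hk), hj])
  · exact open_local hC hv.1 fun i _ hk => hwv i (by rw [lab_of_notMem (not_uses_iff.1 hk)]; exact hj)

theorem cutSet_acc {C : ι → Gate n q ι} {g : ι} {τ : Forest ι} {w : Fin n → Fin q}
    (hw : w ∈ cutSet C g τ) : Acc C w g :=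
  acc_of_open hw.1 (acc_of_sem hw.2)

/-- **Main inequality.** -/
theorem card_le [Fintype ι] {A : Set ℕ} (wt : Fin n → Fin q → ℕ) {C : ι → Gate n q ι}
    (hC : Decomposable C) (g : ι) (hA : ∀ w, Acc C w g → value wt w ∈ A)
    (hinj : Set.InjOn (value wt) {w | Acc C w g}) {m : ℕ}
    (hr : ∀ u v, Acc C u g → Acc C v g → repCount A (value wt u + value wt v) < 2 ^ (m + 1))
    (hq : 2 ≤ q) {K : ℕ} (hK : 1 ≤ K) :
    {w | Acc C w g}.ncard ≤
      (Fintype.card ι + 1) ^ (2 * (n / (K + 1))) * q ^ ((2 * K + 1) * m) := by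
  classical
  have hex : ∀ w, ∃ (σ : Forest ι) (t : Finset (Fin n)), Acc C w g → t ⊆ V C g ∧
      Open C w g (heads σ) ∧ Sem C w σ ∧
      Nice C σ ∧ cov C σ ⊆ V C g ∧ OK C K t σ ∧ ((V C g \ cov C σ) ∩ t).card ≤ K ∧
      (K + 1) * size σ ≤ (cov C σ ∩ t).card ∧
      ∀ w' : Fin n → Fin q, (∀ i ∈ t, w' i = w i) → Acc C w' g := by
    intro w
    by_cases hw : Acc C w g
    · obtain ⟨σ, t, h⟩ := exists_forest hC hK hw
      exact ⟨σ, t, fun _ => h⟩
    · exact ⟨nil, ∅, fun h => absurd h hw⟩
  choose σ t hσ using hex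
  have hm : ∀ {κ : Type} [DecidableEq κ] (P : Fin n → κ) (W : Set (Fin n → Fin q)),
      IsBox P W → (∀ w ∈ W, Acc C w g) → ∀ u ∈ W, ∀ v ∈ W, (dif P u v).card ≤ m := by
    intro κ _ P W hW hWA u hu v hv
    have h2 := pow_le_repr (A := A) wt (hinj.mono fun w hw => hWA w hw) hW
      (fun w hw => hA w (hWA w hw)) hu hv
    have h4 : 2 ^ (dif P u v).card < 2 ^ (m + 1) :=
      lt_of_le_of_lt h2 (hr _ _ (hWA u hu) (hWA v hv))
    have h5 := (Nat.pow_lt_pow_iff_right (by norm_num : 1 < 2)).1 h4
    omega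
  -- untouched variables
  have hfree : ∀ w, Acc C w g → (t w)ᶜ.card ≤ m := by
    intro w hw
    have h9 := (hσ w hw).2.2.2.2.2.2.2.2
    set W : Set (Fin n → Fin q) := {w' | ∀ i ∈ t w, w' i = w i} with hW
    have hbox : IsBox (id : Fin n → Fin n) W := by
      intro a ha b hb j c hca hcb i hi
      by_cases hij : i = j
      · rw [hca i hij]; exact ha i hi
      · rw [hcb i hij]; exact hb i hi
    have hne : ∀ a : Fin q, ∃ b : Fin q, b ≠ a := by
      intro a
      have : Nontrivial (Fin q) := Fin.nontrivial_iff_two_le.2 hq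
      exact exists_ne a
    choose f hf using hne
    set v : Fin n → Fin q := fun i => if i ∈ t w then w i else f (w i) with hv
    have hwW : w ∈ W := fun i _ => rfl
    have hvW : v ∈ W := fun i hi => by simp [hv, hi]
    have h1 := hm id W hbox (fun w' hw' => h9 w' hw') w hwW v hvW
    refine le_trans (Finset.card_le_card ?_) h1
    intro i hi
    rw [Finset.mem_compl] at hi
    refine mem_dif.2 ⟨i, rfl, ?_⟩
    simp only [hv, if_neg hi]
    exact (hf (w i)).symm
  set acc : Finset (Fin n → Fin q) := univ.filter fun w => Acc C w g with hacc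
  have hcard : {w | Acc C w g}.ncard = acc.card := by
    rw [← Set.ncard_coe_finset]
    congr 1
    ext w
    simp [hacc]
  rw [hcard]
  have hsize : ∀ w, Acc C w g → size (σ w) ≤ n / (K + 1) := by
    intro w hw
    have h8 := (hσ w hw).2.2.2.2.2.2.2.1
    rw [Nat.le_div_iff_mul_le (by omega), mul_comm]
    refine h8.trans ?_
    simpa using Finset.card_le_univ (cov C (σ w) ∩ t w)
  have himg : (acc.image σ).card ≤ (Fintype.card ι + 1) ^ (2 * (n / (K + 1))) := by
    refine card_forests _ _ ?_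
    intro τ hτ
    obtain ⟨w, hw, rfl⟩ := Finset.mem_image.1 hτ
    exact hsize w (by simpa [hacc] using hw)
  have hfib : ∀ τ ∈ acc.image σ, (acc.filter fun w => σ w = τ).card ≤ q ^ ((2 * K + 1) * m) := by
    intro τ hτ
    obtain ⟨w, hw, rfl⟩ := Finset.mem_image.1 hτ
    have hwA : Acc C w g := by simpa [hacc] using hw
    obtain ⟨h1, h2, h3, h4, h5, h6, h7, h8, h9⟩ := hσ w hwA
    have hbox := cutSet_isBox hC g (τ := σ w) h4
    have hsmall : (cutSet C g (σ w)).ncard ≤ q ^ ((2 * K + 1) * m) := by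
      refine box_small hbox (t w) ?_ (hfree w hwA) (by omega)
        (hm _ _ hbox fun w' hw' => cutSet_acc hw')
      intro j
      have := class_small (C := C) (K := K) (t := t w) (σ w) univ j (Finset.subset_univ _) h4 h6 ?_
      · rwa [Finset.univ_inter] at this
      · have e : ((univ \ cov C (σ w)) ∩ t w) ⊆ ((V C g \ cov C (σ w)) ∩ t w) := by
          intro i hi
          simp only [Finset.mem_inter, Finset.mem_sdiff, Finset.mem_univ, true_and] at hi ⊢
          exact ⟨⟨h1 hi.2, hi.1⟩, hi.2⟩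
        refine (Finset.card_le_card e).trans (h7.trans (by omega))
    refine le_trans ?_ hsmall
    rw [← Set.ncard_coe_finset]
    refine Set.ncard_le_ncard ?_ (Set.toFinite _)
    intro w' hw'
    rw [Finset.mem_coe, Finset.mem_filter] at hw'
    have hw'A : Acc C w' g := by simpa [hacc] using hw'.1
    have h10 := hσ w' hw'A
    rw [← hw'.2]
    exact ⟨h10.2.1, h10.2.2.1⟩
  calc acc.card ≤ q ^ ((2 * K + 1) * m) * (acc.image σ).card :=
        Finset.card_le_mul_card_image _ _ hfib
    _ ≤ q ^ ((2 * K + 1) * m) * (Fintype.card ι + 1) ^ (2 * (n / (K + 1))) :=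
        Nat.mul_le_mul_left _ himg
    _ = _ := mul_comm _ _

/-- **Tradeoff between circuit size and additive energy.** -/
theorem tradeoff [Fintype ι] {A : Set ℕ} (wt : Fin n → Fin q → ℕ) {C : ι → Gate n q ι}
    (hC : Decomposable C) (g : ι) (hA : ∀ w, Acc C w g → value wt w ∈ A)
    (hinj : Set.InjOn (value wt) {w | Acc C w g}) (hq : 2 ≤ q) (hn : 1 ≤ n) {ε : ℝ}
    (h0 : 0 < ε) (h1 : ε ≤ 1) (hcount : (q : ℝ) ^ (ε * n) ≤ ({w | Acc C w g}.ncard : ℝ)) :
    ∃ u v, Acc C u g ∧ Acc C v g ∧
      (2 : ℝ) ^ (ε ^ 2 * n / (24 * (1 + Real.logb q (Fintype.card ι + 1)))) ≤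
        repCount A (value wt u + value wt v) := by
  by_contra hcon
  push Not at hcon
  have hq1 : (1 : ℝ) < q := by exact_mod_cast (by omega : 1 < q)
  have hq0 : (0 : ℝ) < q := by linarith
  have hnr : (1 : ℝ) ≤ n := by exact_mod_cast hn
  have hι : 1 ≤ Fintype.card ι := Fintype.card_pos_iff.2 ⟨g⟩
  have hιr : (1 : ℝ) ≤ Fintype.card ι := by exact_mod_cast hι
  set s : ℝ := (Fintype.card ι : ℝ) + 1 with hs
  have hs1 : 1 < s := by rw [hs]; linarith
  set ℓ : ℝ := Real.logb q s with hℓ
  have hℓ0 : 0 < ℓ := Real.logb_pos hq1 hs1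
  have hsℓ : s = (q : ℝ) ^ ℓ := by
    rw [hℓ, Real.rpow_logb hq0 hq1.ne' (by linarith)]
  set y : ℝ := ε ^ 2 * n / (24 * (1 + ℓ)) with hy
  have hy0 : 0 < y := by positivity
  set m : ℕ := ⌈y⌉₊ - 1 with hm
  have hceil : 1 ≤ ⌈y⌉₊ := Nat.one_le_iff_ne_zero.2 (by
    rw [Ne, Nat.ceil_eq_zero]
    linarith)
  have hm1 : y ≤ ((m + 1 : ℕ) : ℝ) := by
    rw [hm, Nat.sub_add_cancel hceil]
    exact Nat.le_ceil y
  have hm2 : (m : ℝ) < y := by
    have h2 := Nat.ceil_lt_add_one hy0.le
    have h3 : ((m + 1 : ℕ) : ℝ) = (⌈y⌉₊ : ℝ) := by rw [hm, Nat.sub_add_cancel hceil]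
    push_cast at h3
    linarith
  have hr : ∀ u v, Acc C u g → Acc C v g →
      repCount A (value wt u + value wt v) < 2 ^ (m + 1) := by
    intro u v hu hv
    have h2 := hcon u v hu hv
    have h3 : (2 : ℝ) ^ y ≤ (2 : ℝ) ^ (m + 1) := by
      rw [← Real.rpow_natCast]
      exact Real.rpow_le_rpow_of_exponent_le (by norm_num) hm1
    have h4 : (repCount A (value wt u + value wt v) : ℝ) < ((2 ^ (m + 1) : ℕ) : ℝ) := by
      push_cast
      linarith
    exact_mod_cast h4
  set X : ℝ := 4 * (1 + ℓ) / ε with hX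
  have hX4 : 4 ≤ X := by
    rw [hX, le_div_iff₀ h0]
    nlinarith
  set K : ℕ := ⌊X⌋₊ with hKdef
  have hK4 : 4 ≤ K := Nat.le_floor (by exact_mod_cast hX4)
  have hKX : (K : ℝ) ≤ X := Nat.floor_le (by linarith)
  have hXK : X < K + 1 := Nat.lt_floor_add_one X
  have hmain := card_le wt hC g hA hinj hr hq (K := K) (by omega)
  have hmain' : ({w | Acc C w g}.ncard : ℝ) ≤
      s ^ (2 * (n / (K + 1))) * (q : ℝ) ^ ((2 * K + 1) * m) := by
    rw [hs]
    exact_mod_cast hmain
  have e1 : s ^ (2 * (n / (K + 1))) ≤ (q : ℝ) ^ (ε * n / 2) := by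
    rw [← Real.rpow_natCast, hsℓ, ← Real.rpow_mul hq0.le]
    apply Real.rpow_le_rpow_of_exponent_le hq1.le
    push_cast
    have h2 : ((n / (K + 1) : ℕ) : ℝ) ≤ (n : ℝ) / X := by
      refine (Nat.cast_div_le (α := ℝ)).trans ?_
      push_cast
      exact div_le_div_of_nonneg_left (by linarith) (by linarith) hXK.le
    have h3 : ℓ * (2 * ((n / (K + 1) : ℕ) : ℝ)) ≤ ℓ * (2 * ((n : ℝ) / X)) := by gcongr
    refine h3.trans ?_
    have h4 : ℓ * (2 * ((n : ℝ) / X)) = ε * n / 2 * (ℓ / (1 + ℓ)) := by
      rw [hX]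
      field_simp
      ring
    rw [h4]
    have h5 : ℓ / (1 + ℓ) ≤ 1 := by
      rw [div_le_one (by linarith)]
      linarith
    have h6 : 0 ≤ ε * n / 2 := by positivity
    nlinarith
  have e2 : (q : ℝ) ^ ((2 * K + 1) * m) < (q : ℝ) ^ (ε * n / 2) := by
    rw [← Real.rpow_natCast]
    apply Real.rpow_lt_rpow_of_exponent_lt hq1
    push_cast
    have hK4' : (4 : ℝ) ≤ K := by exact_mod_cast hK4
    have h2 : (2 * (K : ℝ) + 1) * m < (2 * (K : ℝ) + 1) * y := by
      apply mul_lt_mul_of_pos_left hm2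
      positivity
    have h3 : (2 * (K : ℝ) + 1) * y ≤ 3 * X * y := by
      apply mul_le_mul_of_nonneg_right _ hy0.le
      linarith
    have h4 : 3 * X * y = ε * n / 2 := by
      rw [hX, hy]
      field_simp
      ring
    linarith
  have h2 : (q : ℝ) ^ (ε * n) < (q : ℝ) ^ (ε * n) := by
    calc (q : ℝ) ^ (ε * n) ≤ s ^ (2 * (n / (K + 1))) * (q : ℝ) ^ ((2 * K + 1) * m) :=
          hcount.trans hmain'
      _ ≤ (q : ℝ) ^ (ε * n / 2) * (q : ℝ) ^ ((2 * K + 1) * m) := by gcongr
      _ < (q : ℝ) ^ (ε * n / 2) * (q : ℝ) ^ (ε * n / 2) := by gcongr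
      _ = (q : ℝ) ^ (ε * n) := by
        rw [← Real.rpow_add hq0]
        congr 1
        ring
  exact lt_irrefl _ h2

/-- the number with base-`b` digits `w` (least significant digit `w 0`) -/
def numVal {n b : ℕ} (w : Fin n → Fin b) : ℕ := ∑ i, (w i : ℕ) * b ^ (i : ℕ)

theorem val_eq {n b : ℕ} (w : Fin n → Fin b) : numVal w = (finFunctionFinEquiv w : ℕ) := by
  rw [finFunctionFinEquiv_apply]
  rfl

theorem val_injective {n b : ℕ} : Function.Injective (numVal : (Fin n → Fin b) → ℕ) := by
  intro u v h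
  rw [val_eq, val_eq] at h
  exact finFunctionFinEquiv.injective (Fin.ext h)

theorem val_lt {n b : ℕ} (w : Fin n → Fin b) : numVal w < b ^ n := by
  rw [val_eq]
  exact (finFunctionFinEquiv w).2

theorem exists_val {n b x : ℕ} (hx : x < b ^ n) : ∃ w : Fin n → Fin b, numVal w = x := by
  refine ⟨finFunctionFinEquiv.symm ⟨x, hx⟩, ?_⟩
  rw [val_eq, Equiv.apply_symm_apply]

/-- Sets with at least `c N^(1/h)` elements below `N`: base `b`, large `n`. -/
theorem thick_tradeoff {A : Set ℕ} {h : ℕ} (hh : 1 ≤ h) {c : ℝ} (hc : 0 < c)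
    (hcount : ∀ᶠ N : ℕ in Filter.atTop, c * (N : ℝ) ^ (1 / h : ℝ) ≤ ((A ∩ Set.Iio N).ncard : ℝ))
    {b : ℕ} (hb : 2 ≤ b) :
    ∀ᶠ n : ℕ in Filter.atTop,
      (b : ℝ) ^ ((n : ℝ) / (h + 1)) ≤ ((A ∩ Set.Iio (b ^ n)).ncard : ℝ) ∧
      ∀ (ι : Type) [Fintype ι] (C : ι → Gate n b ι) (g : ι), Decomposable C →
        (∀ w, Acc C w g → numVal w ∈ A) →
        (b : ℝ) ^ ((n : ℝ) / (h + 1)) ≤ ({w | Acc C w g}.ncard : ℝ) →
        ∃ x < 2 * b ^ n, (2 : ℝ) ^ ((n : ℝ) / (24 * (h + 1) ^ 2 *
          (1 + Real.logb b (Fintype.card ι + 1)))) ≤ repCount A x := by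
  have hb1 : (1 : ℝ) < b := by exact_mod_cast (by omega : 1 < b)
  have hb0 : (0 : ℝ) < b := by linarith
  have hhr : (1 : ℝ) ≤ h := by exact_mod_cast hh
  have htend : Filter.Tendsto (fun n : ℕ => b ^ n) Filter.atTop Filter.atTop :=
    tendsto_pow_atTop_atTop_of_one_lt (by omega)
  have h1 := htend.eventually hcount
  have h2 : ∀ᶠ n : ℕ in Filter.atTop, 1 / c < (b : ℝ) ^ ((n : ℝ) / (h * (h + 1))) := by
    have h3 : Filter.Tendsto (fun n : ℕ => (b : ℝ) ^ ((n : ℝ) / (h * (h + 1))))
        Filter.atTop Filter.atTop := by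
      refine (tendsto_rpow_atTop_of_base_gt_one (b : ℝ) hb1).comp ?_
      exact tendsto_natCast_atTop_atTop.atTop_div_const (by positivity)
    exact h3.eventually_gt_atTop _
  filter_upwards [h1, h2, Filter.eventually_ge_atTop 1] with n hn1 hn2 hn
  constructor
  · refine le_trans ?_ hn1
    have e1 : ((b ^ n : ℕ) : ℝ) ^ (1 / h : ℝ) = (b : ℝ) ^ ((n : ℝ) / h) := by
      push_cast
      rw [← Real.rpow_natCast, ← Real.rpow_mul hb0.le]
      congr 1
      ring
    rw [e1]
    have e2 : (b : ℝ) ^ ((n : ℝ) / h) =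
        (b : ℝ) ^ ((n : ℝ) / (h + 1)) * (b : ℝ) ^ ((n : ℝ) / (h * (h + 1))) := by
      rw [← Real.rpow_add hb0]
      congr 1
      field_simp
    rw [e2]
    rw [div_lt_iff₀ hc] at hn2
    have h3 : (0 : ℝ) < (b : ℝ) ^ ((n : ℝ) / (h + 1)) := by positivity
    nlinarith
  · intro ι _ C g hC hA hN
    obtain ⟨u, v, hu, hv, huv⟩ := tradeoff (A := A) (fun (i : Fin n) (d : Fin b) => (d : ℕ) * b ^ (i : ℕ))
      hC g hA val_injective.injOn hb hn (ε := 1 / (h + 1)) (by positivity)
      (by rw [div_le_one (by positivity)]; linarith) (by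
        refine le_trans (le_of_eq ?_) hN
        congr 1
        ring)
    refine ⟨numVal u + numVal v, ?_, ?_⟩
    · have := val_lt u
      have := val_lt v
      omega
    · refine le_trans (le_of_eq ?_) huv
      congr 1
      field_simp

end Pool.Agent.H966R2.Circ
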