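import Pool.Agent.H966R2.Circ
import Pool.Agent.H966R2.CFStruct

/-!
Context-free languages have decomposable circuits with `O(n^3)` gates (CYK).
-/

set_option autoImplicit false

namespace Pool.Agent.H966R2.Circ

open Finset Pool.Agent.H966R2.CF

variable {q : ℕ}

/-- suffixes of right-hand sides of rules -/
def items (G : ContextFreeGrammar.{0} (Fin q)) : Set (List (Symbol (Fin q) G.NT)) :=
  {α | α <:+ [Symbol.nonterminal G.initial] ∨ ∃ r ∈ G.rules, α <:+ r.output}

theorem items_finite (G : ContextFreeGrammar.{0} (Fin q)) : (items G).Finite := by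
  have h : items G = {α | α <:+ [Symbol.nonterminal G.initial]} ∪
      ⋃ r ∈ (G.rules : Set (ContextFreeRule (Fin q) G.NT)), {α | α <:+ r.output} := by
    ext α
    simp [items]
  rw [h]
  have hs : ∀ l : List (Symbol (Fin q) G.NT), {α | α <:+ l}.Finite := by
    intro l
    refine (List.finite_toSet l.tails).subset ?_
    intro α hα
    exact (List.mem_tails _ _).2 hα
  exact (hs _).union (G.rules.finite_toSet.biUnion fun r _ => hs _)

/-- the item without its first symbol -/
def tl {G : ContextFreeGrammar.{0} (Fin q)} (a : items G) : items G :=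
  ⟨a.1.tail, by
    rcases a.2 with h | ⟨r, hr, h⟩
    · exact Or.inl ((List.tail_suffix _).trans h)
    · exact Or.inr ⟨r, hr, (List.tail_suffix _).trans h⟩⟩

/-- the right-hand side of a rule as an item -/
def outp {G : ContextFreeGrammar.{0} (Fin q)} (r : ContextFreeRule (Fin q) G.NT)
    (hr : r ∈ G.rules) : items G := ⟨r.output, Or.inr ⟨r, hr, List.suffix_refl _⟩⟩

/-- gates of the CYK circuit -/
abbrev Idx (G : ContextFreeGrammar.{0} (Fin q)) (n : ℕ) : Type :=
  (items G × Fin (n + 1) × Fin (n + 1)) ⊕ (items G × Fin (n + 1) × Fin (n + 1)) ⊕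
    (items G × Fin (n + 1) × Fin (n + 1) × Fin (n + 1))

open Classical in
/-- the CYK circuit -/
noncomputable def cyk (G : ContextFreeGrammar.{0} (Fin q)) (n : ℕ) :
    Idx G n → Gate n q (Idx G n)
  | .inl (a, i, j) => if a.1 = [] then (if i = j then .tt else .or ∅)
      else .or {x | ∃ k, i ≤ k ∧ k ≤ j ∧ x = .inr (.inr (a, i, k, j))}
  | .inr (.inl (a, i, k)) =>
      if h : (i : ℕ) < n ∧ (k : ℕ) = i + 1 ∧ ∃ t β, a.1 = Symbol.terminal t :: β then
        .lit ⟨i, h.1⟩ {t | ∃ β, a.1 = Symbol.terminal t :: β}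
      else .or {x | ∃ (r : ContextFreeRule (Fin q) G.NT) (hr : r ∈ G.rules),
        (∃ β, a.1 = Symbol.nonterminal r.input :: β) ∧ x = .inl (outp r hr, i, k)}
  | .inr (.inr (a, i, k, j)) => .and (.inr (.inl (a, i, k))) (.inl (tl a, k, j))

/-- the part of the word between the positions `i` and `j` -/
def slice {n : ℕ} (w : Fin n → Fin q) (i j : ℕ) : List (Fin q) := ((List.ofFn w).take j).drop i

theorem slice_append {n : ℕ} (w : Fin n → Fin q) {i k j : ℕ} (hik : i ≤ k) (hkj : k ≤ j)
    (hj : j ≤ n) : slice w i k ++ slice w k j = slice w i j := by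
  unfold slice
  have h1 : (List.ofFn w).take j = (List.ofFn w).take k ++ ((List.ofFn w).take j).drop k := by
    conv_lhs => rw [← List.take_append_drop k ((List.ofFn w).take j)]
    rw [List.take_take, min_eq_left hkj]
  conv_rhs => rw [h1]
  rw [List.drop_append_of_le_length]
  rw [List.length_take, List.length_ofFn]
  omega

theorem slice_length {n : ℕ} (w : Fin n → Fin q) {i j : ℕ} (hj : j ≤ n) :
    (slice w i j).length = j - i := by
  unfold slice
  rw [List.length_drop, List.length_take, List.length_ofFn]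
  omega

theorem slice_one {n : ℕ} (w : Fin n → Fin q) {i : ℕ} (hi : i < n) :
    slice w i (i + 1) = [w ⟨i, hi⟩] := by
  apply List.ext_getElem
  · rw [slice_length w hi]
    simp
  · intro m h1 h2
    simp only [List.length_cons, List.length_nil, zero_add, Nat.lt_one_iff] at h2
    subst h2
    simp [slice]

/-- what the gates recognise -/
def sem {G : ContextFreeGrammar.{0} (Fin q)} {n : ℕ} (w : Fin n → Fin q) : Idx G n → Prop
  | .inl (a, i, j) => i ≤ j ∧ D G Set.univ a.1 (slice w i j)
  | .inr (.inl (a, i, k)) => i ≤ k ∧ ∃ s β, a.1 = s :: β ∧ D G Set.univ [s] (slice w i k)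
  | .inr (.inr (a, i, k, j)) => i ≤ k ∧ k ≤ j ∧ D G Set.univ a.1 (slice w i j)

theorem sem_of_acc {G : ContextFreeGrammar.{0} (Fin q)} {n : ℕ} {w : Fin n → Fin q}
    {x : Idx G n} (h : Acc (cyk G n) w x) : sem w x := by
  classical
  induction h with
  | @tt x h =>
    rcases x with ⟨a, i, j⟩ | ⟨a, i, k⟩ | ⟨a, i, k, j⟩
    · simp only [cyk] at h
      split_ifs at h with h1 h2
      subst h2
      refine ⟨le_rfl, ?_⟩
      rw [h1]
      have : slice w i i = [] := List.length_eq_zero_iff.1 (by
        rw [slice_length w (by have := i.2; omega)]; omega)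
      rw [this]
      exact D.nil
    · simp only [cyk] at h
      split_ifs at h
    · simp only [cyk] at h
      cases h
  | @lit x i0 S h hw =>
    rcases x with ⟨a, i, j⟩ | ⟨a, i, k⟩ | ⟨a, i, k, j⟩
    · simp only [cyk] at h
      split_ifs at h
    · simp only [cyk] at h
      split_ifs at h with h1
      cases h
      obtain ⟨hin, hk, _⟩ := h1
      obtain ⟨β, hβ⟩ := hw
      refine ⟨Fin.le_def.2 (by omega), Symbol.terminal (w ⟨i, hin⟩), β, hβ, ?_⟩
      rw [hk, slice_one w hin]
      exact D.term _ _ _ D.nil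
    · simp only [cyk] at h
      cases h
  | @or x c h y hy _ ih =>
    rcases x with ⟨a, i, j⟩ | ⟨a, i, k⟩ | ⟨a, i, k, j⟩
    · simp only [cyk] at h
      split_ifs at h with h1 h2
      · cases h
        exact absurd hy (Set.notMem_empty _)
      · cases h
        obtain ⟨k, hik, hkj, rfl⟩ := hy
        exact ⟨hik.trans hkj, ih.2.2⟩
    · simp only [cyk] at h
      split_ifs at h with h1
      cases h
      obtain ⟨r, hr, ⟨β, hβ⟩, rfl⟩ := hy
      refine ⟨ih.1, _, β, hβ, ?_⟩
      have := D.nonterm r hr (Set.mem_univ _) [] _ [] ih.2 D.nil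
      simpa using this
    · simp only [cyk] at h
      cases h
  | @and x c d h _ _ ih1 ih2 =>
    rcases x with ⟨a, i, j⟩ | ⟨a, i, k⟩ | ⟨a, i, k, j⟩
    · simp only [cyk] at h
      split_ifs at h
    · simp only [cyk] at h
      split_ifs at h
    · simp only [cyk] at h
      cases h
      obtain ⟨h1, s, β, h2, h3⟩ := ih1
      obtain ⟨h4, h5⟩ := ih2
      refine ⟨h1, h4, ?_⟩
      rw [h2, ← slice_append w (Fin.le_def.1 h1) (Fin.le_def.1 h4) (by have := j.2; omega)]
      have h6 : (tl a).1 = β := by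
        show a.1.tail = β
        rw [h2]
        rfl
      rw [h6] at h5
      exact D.append h3 h5

theorem acc_of_D {G : ContextFreeGrammar.{0} (Fin q)} {n : ℕ} {w : Fin n → Fin q}
    {α : List (Symbol (Fin q) G.NT)} {u : List (Fin q)} (h : D G Set.univ α u) :
    ∀ (a : items G) (i j : Fin (n + 1)), a.1 = α → i ≤ j → slice w i j = u →
      Acc (cyk G n) w (.inl (a, i, j)) := by
  classical
  induction h with
  | nil =>
    intro a i j ha hij hs
    have h1 := slice_length w (i := i) (j := j) (by have := j.2; omega)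
    rw [hs] at h1
    have h2 : i = j := by
      apply Fin.ext
      have := Fin.le_def.1 hij
      simp at h1
      omega
    refine Acc.tt ?_
    simp only [cyk]
    rw [if_pos ha, if_pos h2]
  | term t β v h ih =>
    intro a i j ha hij hs
    have h1 := slice_length w (i := i) (j := j) (by have := j.2; omega)
    rw [hs, List.length_cons] at h1
    have hin : (i : ℕ) < n := by have := j.2; omega
    have hk : (i : ℕ) + 1 < n + 1 := by omega
    set k : Fin (n + 1) := ⟨i + 1, hk⟩ with hkdef
    have hik : i ≤ k := Fin.le_def.2 (by rw [hkdef]; simp)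
    have hkj : k ≤ j := Fin.le_def.2 (by rw [hkdef]; simp only; omega)
    have h2 := slice_append w (Fin.le_def.1 hik) (Fin.le_def.1 hkj) (by have := j.2; omega)
    have h3 : slice w i k = [w ⟨i, hin⟩] := slice_one w hin
    rw [hs, h3] at h2
    simp only [List.cons_append, List.nil_append, List.cons.injEq] at h2
    have hne : a.1 ≠ [] := by rw [ha]; simp
    refine Acc.or (c := {x | ∃ k, i ≤ k ∧ k ≤ j ∧ x = .inr (.inr (a, i, k, j))})
      (by simp only [cyk]; rw [if_neg hne]) ⟨k, hik, hkj, rfl⟩ ?_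
    refine Acc.and rfl ?_ ?_
    · refine Acc.lit (i := ⟨i, hin⟩) (D := {t | ∃ β, a.1 = Symbol.terminal t :: β}) ?_
        ⟨β, by rw [ha, h2.1]⟩
      simp only [cyk]
      rw [dif_pos ⟨hin, rfl, t, β, ha⟩]
    · exact ih (tl a) k j (by show a.1.tail = β; rw [ha]; rfl) hkj h2.2
  | nonterm r hr hS β u v h1 h2 ih1 ih2 =>
    intro a i j ha hij hs
    have h3 := slice_length w (i := i) (j := j) (by have := j.2; omega)
    rw [hs, List.length_append] at h3
    have hjn : (j : ℕ) < n + 1 := j.2
    have hk : (i : ℕ) + u.length < n + 1 := by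
      have := Fin.le_def.1 hij
      omega
    set k : Fin (n + 1) := ⟨i + u.length, hk⟩ with hkdef
    have hik : i ≤ k := Fin.le_def.2 (by rw [hkdef]; simp)
    have hkj : k ≤ j := Fin.le_def.2 (by
      rw [hkdef]; simp only
      have := Fin.le_def.1 hij
      omega)
    have h4 := slice_append w (Fin.le_def.1 hik) (Fin.le_def.1 hkj) (by omega)
    rw [hs] at h4
    have h5 : (slice w i k).length = u.length := by
      rw [slice_length w (by have := k.2; omega), hkdef]
      simp
    obtain ⟨h6, h7⟩ := List.append_inj h4 h5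
    have hne : a.1 ≠ [] := by rw [ha]; simp
    refine Acc.or (c := {x | ∃ k, i ≤ k ∧ k ≤ j ∧ x = .inr (.inr (a, i, k, j))})
      (by simp only [cyk]; rw [if_neg hne]) ⟨k, hik, hkj, rfl⟩ ?_
    refine Acc.and rfl ?_ ?_
    · have hn : ¬ ((i : ℕ) < n ∧ (k : ℕ) = i + 1 ∧ ∃ t β, a.1 = Symbol.terminal t :: β) := by
        rintro ⟨_, _, t, β', h8⟩
        rw [ha] at h8
        cases h8
      refine Acc.or (c := {x | ∃ (r : ContextFreeRule (Fin q) G.NT) (hr : r ∈ G.rules),
        (∃ β, a.1 = Symbol.nonterminal r.input :: β) ∧ x = .inl (outp r hr, i, k)}) ?_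
        ⟨r, hr, ⟨β, ha⟩, rfl⟩ (ih1 _ i k rfl hik h6)
      simp only [cyk]
      rw [dif_neg hn]
    · exact ih2 (tl a) k j (by show a.1.tail = β; rw [ha]; rfl) hkj h7

/-- the variables below a gate of the CYK circuit -/
def rng {G : ContextFreeGrammar.{0} (Fin q)} {n : ℕ} (i0 : Fin n) : Idx G n → Prop
  | .inl (_, i, j) => (i : ℕ) ≤ i0 ∧ (i0 : ℕ) < j
  | .inr (.inl (_, i, k)) => (i : ℕ) ≤ i0 ∧ (i0 : ℕ) < k
  | .inr (.inr (_, i, k, j)) => ((i : ℕ) ≤ i0 ∧ (i0 : ℕ) < k) ∨ ((k : ℕ) ≤ i0 ∧ (i0 : ℕ) < j)

theorem rng_of_uses {G : ContextFreeGrammar.{0} (Fin q)} {n : ℕ} {i0 : Fin n}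
    {x : Idx G n} (h : Uses (cyk G n) i0 x) : rng i0 x := by
  classical
  induction h with
  | @lit x S h =>
    rcases x with ⟨a, i, j⟩ | ⟨a, i, k⟩ | ⟨a, i, k, j⟩
    · simp only [cyk] at h
      split_ifs at h
    · simp only [cyk] at h
      split_ifs at h with h1
      cases h
      obtain ⟨hin, hk, _⟩ := h1
      refine ⟨le_rfl, ?_⟩
      show (i : ℕ) < k
      omega
    · simp only [cyk] at h
      cases h
  | @or x c h y hy _ ih =>
    rcases x with ⟨a, i, j⟩ | ⟨a, i, k⟩ | ⟨a, i, k, j⟩
    · simp only [cyk] at h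
      split_ifs at h with h1 h2
      · cases h
        exact absurd hy (Set.notMem_empty _)
      · cases h
        obtain ⟨k, hik, hkj, rfl⟩ := hy
        have h3 := Fin.le_def.1 hik
        have h4 := Fin.le_def.1 hkj
        simp only [rng] at ih ⊢
        omega
    · simp only [cyk] at h
      split_ifs at h with h1
      cases h
      obtain ⟨r, hr, ⟨β, hβ⟩, rfl⟩ := hy
      exact ih
    · simp only [cyk] at h
      cases h
  | @left x c d h _ ih =>
    rcases x with ⟨a, i, j⟩ | ⟨a, i, k⟩ | ⟨a, i, k, j⟩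
    · simp only [cyk] at h
      split_ifs at h
    · simp only [cyk] at h
      split_ifs at h
    · simp only [cyk] at h
      cases h
      exact Or.inl ih
  | @right x c d h _ ih =>
    rcases x with ⟨a, i, j⟩ | ⟨a, i, k⟩ | ⟨a, i, k, j⟩
    · simp only [cyk] at h
      split_ifs at h
    · simp only [cyk] at h
      split_ifs at h
    · simp only [cyk] at h
      cases h
      exact Or.inr ih

theorem cyk_decomposable (G : ContextFreeGrammar.{0} (Fin q)) (n : ℕ) :
    Decomposable (cyk G n) := by
  classical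
  intro x c d h i0 ⟨h1, h2⟩
  rcases x with ⟨a, i, j⟩ | ⟨a, i, k⟩ | ⟨a, i, k, j⟩
  · simp only [cyk] at h
    split_ifs at h
  · simp only [cyk] at h
    split_ifs at h
  · simp only [cyk] at h
    cases h
    have h3 := rng_of_uses h1
    have h4 := rng_of_uses h2
    simp only [rng] at h3 h4
    omega

/-- For a context-free language over the alphabet `{0, ..., q - 1}` the words of length `n` are
accepted by a decomposable circuit with `O(n^3)` gates. -/
theorem contextFree_circuits {L : Language (Fin q)} (hL : L.IsContextFree) :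
    ∃ c : ℕ, ∀ n : ℕ, ∃ (ι : Type) (_ : Fintype ι) (C : ι → Gate n q ι) (g : ι),
      Decomposable C ∧ Fintype.card ι ≤ c * (n + 1) ^ 3 ∧ ∀ w, Acc C w g ↔ List.ofFn w ∈ L := by
  classical
  obtain ⟨G, hG⟩ := hL
  have hfin := items_finite G
  let _ : Fintype (items G) := hfin.fintype
  refine ⟨3 * Fintype.card (items G), fun n => ⟨Idx G n, inferInstance, cyk G n,
    .inl (⟨[Symbol.nonterminal G.initial], Or.inl (List.suffix_refl _)⟩, 0, Fin.last n),
    cyk_decomposable G n, ?_, fun w => ?_⟩⟩
  · simp only [Idx, Fintype.card_sum, Fintype.card_prod, Fintype.card_fin]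
    have h1 : (n + 1) * (n + 1) ≤ (n + 1) ^ 3 := by
      have : (n + 1) * (n + 1) * 1 ≤ (n + 1) * (n + 1) * (n + 1) :=
        Nat.mul_le_mul_left _ (by omega)
      calc (n + 1) * (n + 1) = (n + 1) * (n + 1) * 1 := by ring
        _ ≤ (n + 1) * (n + 1) * (n + 1) := this
        _ = (n + 1) ^ 3 := by ring
    calc Fintype.card (items G) * ((n + 1) * (n + 1)) +
          (Fintype.card (items G) * ((n + 1) * (n + 1)) +
            Fintype.card (items G) * ((n + 1) * ((n + 1) * (n + 1)))) ≤
          Fintype.card (items G) * (n + 1) ^ 3 +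
          (Fintype.card (items G) * (n + 1) ^ 3 +
            Fintype.card (items G) * ((n + 1) * ((n + 1) * (n + 1)))) := by gcongr
      _ = _ := by ring
  · have hsl : slice w ((0 : Fin (n + 1)) : ℕ) (Fin.last n : ℕ) = List.ofFn w := by
      unfold slice
      simp
    constructor
    · intro h
      have h1 := sem_of_acc h
      simp only [sem] at h1
      rw [hsl] at h1
      rw [← hG]
      exact h1.2.derives
    · intro h
      rw [← hG] at h
      exact acc_of_D (D.of_derives h) _ 0 (Fin.last n) rfl (Fin.zero_le _) hsl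

end Pool.Agent.H966R2.Circ
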