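import Pool.Agent.H966R2.CFSwap

/-!
# The Erdős–Turán conjecture for context-free sets

A set `A` of natural numbers is called context-free here if its elements have unique
representations, in some additive positional numeration system (base `k`, Zeckendorf,
Dumont–Thomas, ...), by the words of a context-free language, the length of the representation
of `a` being comparable with `log a`. For such sets we prove: either `A` has only
`O((log N)^d)` elements up to `N`, or the number of representations `a + b = n` exceeds a fixed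
positive power of `n` for infinitely many `n`. So both forms of the Erdős–Turán conjecture hold
for these sets.
-/

set_option autoImplicit false

namespace Pool.Agent.H966R2.ContextFreeSets

open Filter Pool.Agent.H966R2.CF

/-- `A` is context-free with respect to some additive positional numeration system: there are
an alphabet `T`, weights `W i t` (the contribution of the letter `t` at position `i`) and a
context-free language `L` over `T` such that `w ↦ ∑ i, W i (w i)` is a bijection from `L` onto `A`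
and the length of the word representing `a` has the exact order of magnitude of `log a`. -/
def IsContextFreeSet (A : Set ℕ) : Prop :=
  ∃ (T : Type) (W : ℕ → T → ℕ) (L : Language T), L.IsContextFree ∧
    Set.BijOn (fun w : List T => (w.mapIdx W).sum) L A ∧
    ∃ c C : ℝ, 0 < c ∧ ∀ w ∈ L,
      c * Real.log ((w.mapIdx W).sum + 2) ≤ w.length + 1 ∧
      (w.length : ℝ) ≤ C * Real.log ((w.mapIdx W).sum + 2)

/-- `r_A(n)`: the number of pairs `(a, b) ∈ A × A` with `a + b = n`. -/
noncomputable def repr (A : Set ℕ) (n : ℕ) : ℕ :=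
  Set.ncard {p : ℕ × ℕ | p.1 ∈ A ∧ p.2 ∈ A ∧ p.1 + p.2 = n}

/-- `r_A(n) ≥ n ^ δ` for some fixed `δ > 0` and infinitely many `n`. -/
def PowerManyReprs (A : Set ℕ) : Prop :=
  ∃ δ : ℝ, 0 < δ ∧ ∃ᶠ n : ℕ in atTop, (n : ℝ) ^ δ ≤ repr A n

/-- `A` has `O((log N)^d)` elements up to `N`, for some `d`. -/
def Polylog (A : Set ℕ) : Prop :=
  ∃ (C : ℝ) (d : ℕ), ∀ N : ℕ, (Set.ncard {a | a ∈ A ∧ a ≤ N} : ℝ) ≤ C * Real.log (N + 2) ^ d

theorem log_two_pos : 0 < Real.log 2 := Real.log_pos (by norm_num)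

theorem power_of_loops {A : Set ℕ} {T : Type} {W : ℕ → T → ℕ} {L : Set (List T)}
    (hinj : Set.InjOn (value W) L) (hmaps : Set.MapsTo (value W) L A)
    {c : ℝ} (hc : 0 < c) (hlen : ∀ w ∈ L, c * Real.log (value W w + 2) ≤ w.length + 1)
    {u v z x0 x1 y0 y1 : List T} (hx : x0.length = x1.length)
    (hy : y0.length = y1.length) (hne : x0 ≠ x1 ∨ y0 ≠ y1)
    (hmem : ∀ s, Zw u v z x0 x1 y0 y1 s ∈ L) : PowerManyReprs A := by
  set a : ℝ := ((u.length + z.length + v.length + 1 : ℕ) : ℝ) with ha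
  set b : ℝ := ((x0.length + y0.length : ℕ) : ℝ) with hb
  have ha0 : 0 < a := by rw [ha]; positivity
  have hb0 : 0 ≤ b := by rw [hb]; positivity
  have hval : ∀ (n : ℕ) (s : List Bool), s.length = n →
      (value W (Zw u v z x0 x1 y0 y1 s) : ℝ) ≤ Real.exp ((a + b * n) / c) := by
    intro n s hs
    have h1 := hlen _ (hmem s)
    rw [length_Zw hx hy, hs] at h1
    have h2 : Real.log (value W (Zw u v z x0 x1 y0 y1 s) + 2) ≤ (a + b * n) / c := by
      rw [le_div_iff₀ hc, mul_comm]
      refine h1.trans (le_of_eq ?_)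
      rw [ha, hb]
      push_cast
      ring
    have h3 : (0 : ℝ) < value W (Zw u v z x0 x1 y0 y1 s) + 2 := by positivity
    have h4 := (Real.log_le_iff_le_exp h3).1 h2
    linarith
  set β : ℝ := (a + b) / c + Real.log 2 with hβ
  have hβ0 : 0 < β := by
    have := log_two_pos
    positivity
  set K : ℕ → ℕ := fun n => value W (Zw u v z x0 x1 y0 y1 (List.replicate n false)) +
      value W (Zw u v z x0 x1 y0 y1 (List.replicate n true)) with hK
  have hrep : ∀ n, 2 ^ n ≤ rep A (K n) := fun n =>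
    two_pow_le_rep hinj hmaps hx hy hne hmem n
  have hKle : ∀ n : ℕ, 1 ≤ n → (K n : ℝ) ≤ Real.exp (β * n) := by
    intro n hn
    have hn' : (1 : ℝ) ≤ n := by exact_mod_cast hn
    have h1 := hval n (List.replicate n false) (by simp)
    have h2 := hval n (List.replicate n true) (by simp)
    have h3 : (K n : ℝ) ≤ 2 * Real.exp ((a + b * n) / c) := by
      rw [hK]
      push_cast
      linarith
    refine h3.trans ?_
    have h4 : (2 : ℝ) * Real.exp ((a + b * n) / c) = Real.exp (Real.log 2 + (a + b * n) / c) := by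
      rw [Real.exp_add, Real.exp_log (by norm_num)]
    rw [h4, Real.exp_le_exp, hβ, add_mul, div_mul_eq_mul_div, add_comm]
    have h5 : (a + b * n) / c ≤ (a + b) * n / c := by
      refine div_le_div_of_nonneg_right ?_ hc.le
      nlinarith
    have h6 := log_two_pos
    nlinarith
  refine ⟨Real.log 2 / β, div_pos log_two_pos hβ0, ?_⟩
  rw [Filter.frequently_atTop]
  intro M
  set n := M + 2 with hn
  refine ⟨K n, ?_, ?_⟩
  · have h1 := hrep n
    have h2 := rep_le A (K n)
    have h3 : n < 2 ^ n := Nat.lt_two_pow_self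
    omega
  · have h1 : (K n : ℝ) ^ (Real.log 2 / β) ≤ (Real.exp (β * n)) ^ (Real.log 2 / β) :=
      Real.rpow_le_rpow (by positivity) (hKle n (by omega)) (div_pos log_two_pos hβ0).le
    have h2 : (Real.exp (β * n)) ^ (Real.log 2 / β) = 2 ^ n := by
      rw [← Real.exp_mul]
      have : β * n * (Real.log 2 / β) = Real.log 2 * n := by
        field_simp
      rw [this, Real.exp_mul, Real.exp_log (by norm_num), Real.rpow_natCast]
    rw [h2] at h1
    refine h1.trans ?_
    have h3 := hrep n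
    have h4 : rep A (K n) = repr A (K n) := rfl
    rw [h4] at h3
    exact_mod_cast h3

theorem polylog_of_polyB {A : Set ℕ} {T : Type} {W : ℕ → T → ℕ} {L : Set (List T)}
    (hsurj : ∀ a ∈ A, ∃ w ∈ L, value W w = a)
    {C : ℝ} (hlen : ∀ w ∈ L, (w.length : ℝ) ≤ C * Real.log (value W w + 2))
    (hL : PolyB L) : Polylog A := by
  classical
  obtain ⟨C1, d, hF⟩ := hL
  set C' : ℝ := max C 0 with hC'
  have hC'0 : 0 ≤ C' := le_max_right _ _
  refine ⟨C1 * (C' + 1 / Real.log 2) ^ d, d, fun N => ?_⟩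
  set n := ⌊C' * Real.log (N + 2)⌋₊ with hn
  obtain ⟨F, hFc, hFm⟩ := hF n
  have hlogN : Real.log 2 ≤ Real.log ((N : ℝ) + 2) :=
    Real.log_le_log (by norm_num) (by linarith [Nat.cast_nonneg (α := ℝ) N])
  have hlogN0 : 0 < Real.log ((N : ℝ) + 2) := log_two_pos.trans_le hlogN
  have hsub : {a | a ∈ A ∧ a ≤ N} ⊆ ((F.image (value W) : Finset ℕ) : Set ℕ) := by
    rintro a ⟨ha, haN⟩
    obtain ⟨w, hw, rfl⟩ := hsurj a ha
    have h1 := hlen w hw
    have h2 : (w.length : ℝ) ≤ C' * Real.log (N + 2) := by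
      refine h1.trans ?_
      have h3 : Real.log ((value W w : ℝ) + 2) ≤ Real.log ((N : ℝ) + 2) := by
        refine Real.log_le_log (by positivity) ?_
        have : (value W w : ℝ) ≤ N := by exact_mod_cast haN
        linarith
      have h4 : 0 ≤ Real.log ((value W w : ℝ) + 2) :=
        Real.log_nonneg (by linarith [Nat.cast_nonneg (α := ℝ) (value W w)])
      calc C * Real.log (value W w + 2) ≤ C' * Real.log (value W w + 2) :=
            mul_le_mul_of_nonneg_right (le_max_left _ _) h4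
        _ ≤ C' * Real.log (N + 2) := mul_le_mul_of_nonneg_left h3 hC'0
    have h5 : w.length ≤ n := Nat.le_floor h2
    simp only [Finset.coe_image, Set.mem_image, Finset.mem_coe]
    exact ⟨w, hFm w hw h5, rfl⟩
  have h1 := Set.ncard_le_ncard hsub (Finset.finite_toSet _)
  rw [Set.ncard_coe_finset] at h1
  have h2 := h1.trans (Finset.card_image_le.trans hFc)
  have h3 : (Set.ncard {a | a ∈ A ∧ a ≤ N} : ℝ) ≤ C1 * ((n : ℝ) + 1) ^ d := by
    exact_mod_cast h2
  refine h3.trans ?_
  rw [mul_assoc, ← mul_pow]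
  refine mul_le_mul_of_nonneg_left (pow_le_pow_left₀ (by positivity) ?_ d) (by positivity)
  have h4 : (n : ℝ) ≤ C' * Real.log (N + 2) := Nat.floor_le (by positivity)
  have h5 : 1 ≤ 1 / Real.log 2 * Real.log (N + 2) := by
    rw [div_mul_eq_mul_div, one_mul, le_div_iff₀ log_two_pos, one_mul]
    exact hlogN
  rw [add_mul]
  linarith

theorem dichotomy_set (A : Set ℕ) (hA : IsContextFreeSet A) : Polylog A ∨ PowerManyReprs A := by
  obtain ⟨T, W, L, ⟨g, rfl⟩, hbij, c, C, hc, hlen⟩ := hA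
  rcases dichotomy g with ⟨B, x0, y0, x1, y1, ⟨u, v, z, hu, hz⟩, h0, h1, hx, hy, hne⟩ | hpoly
  · right
    exact power_of_loops (W := W) (L := {w | w ∈ g.language}) hbij.injOn hbij.mapsTo hc
      (fun w hw => (hlen w hw).1) hx hy hne (fun s => Zw_mem hu hz h0 h1 s)
  · left
    refine polylog_of_polyB (W := W) (L := {w | w ∈ g.language}) ?_ (fun w hw => (hlen w hw).2)
      hpoly
    intro a ha
    obtain ⟨w, hw, h⟩ := hbij.surjOn ha
    exact ⟨w, hw, h⟩

theorem polylog_small {A : Set ℕ} (h : Polylog A) (ε : ℝ) (hε : 0 < ε) :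
    ∀ᶠ N : ℕ in atTop, (Set.ncard {a | a ∈ A ∧ a ≤ N} : ℝ) ≤ ((N : ℝ) + 2) ^ ε := by
  obtain ⟨C, d, h⟩ := h
  have h1 : (fun x : ℝ => Real.log x ^ (d : ℝ)) =o[atTop] fun x => x ^ ε :=
    isLittleO_log_rpow_rpow_atTop (d : ℝ) hε
  have h2 := h1.bound (c := 1 / (|C| + 1)) (by positivity)
  have h3 : Tendsto (fun N : ℕ => (N : ℝ) + 2) atTop atTop :=
    tendsto_atTop_add_const_right _ _ tendsto_natCast_atTop_atTop
  filter_upwards [h3.eventually h2] with N hN
  refine (h N).trans ?_
  rw [Real.rpow_natCast, Real.norm_eq_abs, Real.norm_eq_abs, abs_pow] at hN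
  have h4 : 0 ≤ ((N : ℝ) + 2) ^ ε := by positivity
  rw [abs_of_nonneg h4] at hN
  have h5 : 0 ≤ Real.log ((N : ℝ) + 2) :=
    Real.log_nonneg (by linarith [Nat.cast_nonneg (α := ℝ) N])
  rw [abs_of_nonneg h5] at hN
  calc C * Real.log (N + 2) ^ d ≤ |C| * Real.log (N + 2) ^ d :=
        mul_le_mul_of_nonneg_right (le_abs_self C) (by positivity)
    _ ≤ |C| * (1 / (|C| + 1) * ((N : ℝ) + 2) ^ ε) :=
        mul_le_mul_of_nonneg_left hN (abs_nonneg C)
    _ = (|C| / (|C| + 1)) * ((N : ℝ) + 2) ^ ε := by ring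
    _ ≤ 1 * ((N : ℝ) + 2) ^ ε := by
        refine mul_le_mul_of_nonneg_right ?_ h4
        rw [div_le_one (by positivity)]
        linarith
    _ = ((N : ℝ) + 2) ^ ε := one_mul _

theorem infinite_of_repr {A : Set ℕ} (h : ∀ᶠ n in atTop, 1 ≤ repr A n) : ¬ Polylog A := by
  intro hpoly
  obtain ⟨n0, hn0⟩ := eventually_atTop.1 h
  obtain ⟨N1, hN1⟩ := eventually_atTop.1 (polylog_small hpoly (1 / 4) (by norm_num))
  set N := max N1 (4 * n0 + 100) with hN
  have hfin : {a | a ∈ A ∧ a ≤ N}.Finite := (Set.finite_Iic N).subset fun a ha => ha.2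
  have h1 : ∀ n, ∃ p : ℕ × ℕ, n0 ≤ n → p.1 ∈ A ∧ p.2 ∈ A ∧ p.1 + p.2 = n := by
    intro n
    by_cases hn : n0 ≤ n
    · have h2 := hn0 n hn
      have h3 : {p : ℕ × ℕ | p.1 ∈ A ∧ p.2 ∈ A ∧ p.1 + p.2 = n}.Nonempty := by
        by_contra h4
        rw [Set.not_nonempty_iff_eq_empty] at h4
        unfold repr at h2
        rw [h4, Set.ncard_empty] at h2
        omega
      obtain ⟨p, hp⟩ := h3
      exact ⟨p, fun _ => hp⟩
    · exact ⟨(0, 0), fun h => absurd h hn⟩
  choose p hp using h1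
  have h2 : (N + 1 - n0) ≤ (Set.ncard {a | a ∈ A ∧ a ≤ N}) ^ 2 := by
    have h3 : ((Finset.Icc n0 N).image p : Finset (ℕ × ℕ)) ⊆ hfin.toFinset ×ˢ hfin.toFinset := by
      intro q hq
      obtain ⟨n, hn, rfl⟩ := Finset.mem_image.1 hq
      rw [Finset.mem_Icc] at hn
      obtain ⟨h4, h5, h6⟩ := hp n hn.1
      rw [Finset.mem_product, Set.Finite.mem_toFinset, Set.Finite.mem_toFinset]
      exact ⟨⟨h4, by omega⟩, ⟨h5, by omega⟩⟩
    have h4 := Finset.card_le_card h3
    rw [Finset.card_product, ← Set.ncard_eq_toFinset_card _ hfin,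
      Finset.card_image_of_injOn, Nat.card_Icc] at h4
    · rw [sq]; exact h4
    · intro n hn m hm hnm
      rw [Finset.coe_Icc, Set.mem_Icc] at hn hm
      have h5 := (hp n hn.1).2.2
      have h6 := (hp m hm.1).2.2
      rw [← h5, ← h6, hnm]
  have h3 := hN1 N (le_max_left _ _)
  have hNr : (4 * n0 + 100 : ℝ) ≤ N := by
    have : 4 * n0 + 100 ≤ N := le_max_right _ _
    exact_mod_cast this
  have h4 : ((N : ℝ) + 1 - n0) ≤ (Set.ncard {a | a ∈ A ∧ a ≤ N} : ℝ) ^ 2 := by
    have h5 : N + 1 ≤ (Set.ncard {a | a ∈ A ∧ a ≤ N}) ^ 2 + n0 := by omega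
    have h6 : ((N : ℝ) + 1) ≤ (Set.ncard {a | a ∈ A ∧ a ≤ N} : ℝ) ^ 2 + n0 := by exact_mod_cast h5
    linarith
  have h5 : (Set.ncard {a | a ∈ A ∧ a ≤ N} : ℝ) ^ 2 ≤ ((N : ℝ) + 2) ^ (1 / 2 : ℝ) := by
    have h6 := pow_le_pow_left₀ (by positivity) h3 2
    refine h6.trans (le_of_eq ?_)
    rw [← Real.rpow_natCast, ← Real.rpow_mul (by positivity)]
    norm_num
  have h6 : ((N : ℝ) + 1 - n0) ≤ ((N : ℝ) + 2) ^ (1 / 2 : ℝ) := h4.trans h5
  rw [← Real.sqrt_eq_rpow] at h6
  have h7 : (((N : ℝ) + 2) / 2) ≤ Real.sqrt ((N : ℝ) + 2) := by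
    refine le_trans ?_ h6
    linarith [Nat.cast_nonneg (α := ℝ) n0]
  have h8 : Real.sqrt ((N : ℝ) + 2) * Real.sqrt ((N : ℝ) + 2) = (N : ℝ) + 2 :=
    Real.mul_self_sqrt (by positivity)
  have h9 : 10 ≤ Real.sqrt ((N : ℝ) + 2) := by
    refine Real.le_sqrt_of_sq_le ?_
    linarith [Nat.cast_nonneg (α := ℝ) n0]
  nlinarith

theorem not_polylog_of_nth {A : Set ℕ} (hinf : A.Infinite)
    (h : ∃ C D : ℕ, ∀ n, Nat.nth (· ∈ A) n ≤ C * (n + 1) ^ D) : ¬ Polylog A := by
  intro hpoly
  obtain ⟨C, D, h⟩ := h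
  set ε : ℝ := 1 / (2 * (D + 1)) with hε
  have hε0 : 0 < ε := by positivity
  obtain ⟨N1, hN1⟩ := eventually_atTop.1 (polylog_small hpoly ε hε0)
  have key : ∀ n : ℕ, N1 ≤ n → ((n : ℝ) + 1) ≤ ((C : ℝ) + 3) ^ ε * ((n : ℝ) + 1) ^ (1 / 2 : ℝ) := by
    intro n hn
    set N := (C + 1) * (n + 1) ^ (D + 1) with hN
    have hNn : n ≤ N := by
      have h1 : n + 1 ≤ (n + 1) ^ (D + 1) := Nat.le_self_pow (by omega) _
      nlinarith
    have hfin : {a | a ∈ A ∧ a ≤ N}.Finite := (Set.finite_Iic N).subset fun a ha => ha.2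
    have h1 : n + 1 ≤ Set.ncard {a | a ∈ A ∧ a ≤ N} := by
      have h2 : (((Finset.range (n + 1)).image (Nat.nth (· ∈ A)) : Finset ℕ) : Set ℕ) ⊆
          {a | a ∈ A ∧ a ≤ N} := by
        intro a ha
        simp only [Finset.coe_image, Set.mem_image, Finset.mem_coe, Finset.mem_range] at ha
        obtain ⟨i, hi, rfl⟩ := ha
        refine ⟨Nat.nth_mem_of_infinite hinf i, (h i).trans ?_⟩
        refine Nat.mul_le_mul (by omega) ?_
        exact (Nat.pow_le_pow_left (by omega) D).trans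
          (Nat.pow_le_pow_right (by omega) (by omega))
      have h3 := Set.ncard_le_ncard h2 hfin
      rw [Set.ncard_coe_finset, Finset.card_image_of_injective _ (Nat.nth_injective (p := fun x => x ∈ A) hinf),
        Finset.card_range] at h3
      exact h3
    have h2 := hN1 N (hn.trans hNn)
    have h3 : ((n : ℝ) + 1) ≤ (Set.ncard {a | a ∈ A ∧ a ≤ N} : ℝ) := by exact_mod_cast h1
    refine h3.trans (h2.trans ?_)
    have h4 : ((N : ℝ) + 2) ≤ ((C : ℝ) + 3) * ((n : ℝ) + 1) ^ (D + 1) := by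
      rw [hN]
      push_cast
      have h5 : (1 : ℝ) ≤ ((n : ℝ) + 1) ^ (D + 1) :=
        one_le_pow₀ (by linarith [Nat.cast_nonneg (α := ℝ) n])
      nlinarith
    have h5 := Real.rpow_le_rpow (by positivity) h4 hε0.le
    refine h5.trans (le_of_eq ?_)
    rw [Real.mul_rpow (by positivity) (by positivity), ← Real.rpow_natCast,
      ← Real.rpow_mul (by positivity)]
    congr 2
    rw [hε]
    push_cast
    field_simp
  have h1 : ∀ n : ℕ, N1 ≤ n → Real.sqrt ((n : ℝ) + 1) ≤ ((C : ℝ) + 3) ^ ε := by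
    intro n hn
    have h2 := key n hn
    rw [← Real.sqrt_eq_rpow] at h2
    have h3 : Real.sqrt ((n : ℝ) + 1) * Real.sqrt ((n : ℝ) + 1) = (n : ℝ) + 1 :=
      Real.mul_self_sqrt (by positivity)
    have h4 : 0 < Real.sqrt ((n : ℝ) + 1) := Real.sqrt_pos.2 (by positivity)
    refine le_of_mul_le_mul_right ?_ h4
    rw [h3]
    exact h2
  obtain ⟨m, hm⟩ := exists_nat_gt ((((C : ℝ) + 3) ^ ε) ^ 2)
  have h2 := h1 (max N1 m) (le_max_left _ _)
  have h3 : ((m : ℝ) + 1) ≤ ((((C : ℝ) + 3) ^ ε)) ^ 2 := by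
    have h4 : ((m : ℝ) + 1) ≤ ((max N1 m : ℕ) : ℝ) + 1 := by
      have : m ≤ max N1 m := le_max_right _ _
      have : (m : ℝ) ≤ ((max N1 m : ℕ) : ℝ) := by exact_mod_cast this
      linarith
    refine h4.trans ?_
    have h5 := pow_le_pow_left₀ (Real.sqrt_nonneg _) h2 2
    rwa [Real.sq_sqrt (by positivity)] at h5
  linarith

/-- **Erdős–Turán for context-free sets.** Let `A` be a context-free set of natural numbers
(with respect to some additive positional numeration system). Then either `A` has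
`O((log N)^d)` elements up to `N`, or `r_A(n) ≥ n^δ` for some `δ > 0` and infinitely many `n`.
Consequently, if `r_A(n) ≥ 1` for all large `n`, or if `A = {a_0 < a_1 < ...}` is infinite with
`a_n ≤ C (n + 1)^D` for some `C`, `D`, then `r_A(n) ≥ n^δ` for some `δ > 0` and infinitely
many `n`; in particular `r_A` is unbounded. -/
theorem result (A : Set ℕ) (hA : IsContextFreeSet A) :
    (Polylog A ∨ PowerManyReprs A) ∧
    ((∀ᶠ n in atTop, 1 ≤ repr A n) → PowerManyReprs A) ∧
    (A.Infinite → (∃ C D : ℕ, ∀ n, Nat.nth (· ∈ A) n ≤ C * (n + 1) ^ D) → PowerManyReprs A) :=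
  ⟨dichotomy_set A hA,
    fun h => (dichotomy_set A hA).resolve_left (infinite_of_repr h),
    fun hinf h => (dichotomy_set A hA).resolve_left (not_polylog_of_nth hinf h)⟩

/-- Special case (not part of the result): sets whose base-`k` digit expansions form a
context-free language (for instance all `k`-automatic sets) are context-free sets. -/
theorem isContextFreeSet_of_digits (k : ℕ) (hk : 2 ≤ k) (A : Set ℕ)
    (h : Language.IsContextFree ((Nat.digits k '' A : Set (List ℕ)) : Language ℕ)) :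
    IsContextFreeSet A := by
  refine ⟨ℕ, fun i t => t * k ^ i, _, h, ?_⟩
  have hval : ∀ w : List ℕ, (w.mapIdx fun i t => t * k ^ i).sum = Nat.ofDigits k w := by
    intro w
    rw [Nat.ofDigits_eq_sum_mapIdx]
  have hk0 : (0 : ℝ) < Real.log k := Real.log_pos (by exact_mod_cast hk)
  refine ⟨?_, 1 / Real.log k, 1 / Real.log k + 2, by positivity, ?_⟩
  · simp only [hval]
    refine ⟨?_, ?_, ?_⟩
    · rintro _ ⟨a, ha, rfl⟩
      simpa [Nat.ofDigits_digits] using ha
    · rintro _ ⟨a, ha, rfl⟩ _ ⟨b, hb, rfl⟩ hab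
      simp only [Nat.ofDigits_digits] at hab
      rw [hab]
    · intro a ha
      exact ⟨Nat.digits k a, ⟨a, ha, rfl⟩, Nat.ofDigits_digits k a⟩
  · rintro _ ⟨a, ha, rfl⟩
    simp only [hval, Nat.ofDigits_digits]
    set l := (Nat.digits k a).length with hl
    have hk1 : (1 : ℝ) ≤ k := by exact_mod_cast (by omega : 1 ≤ k)
    have h1 : a < k ^ l := Nat.lt_base_pow_length_digits (by omega)
    have h2 : a + 2 ≤ k ^ (l + 1) := by
      rw [pow_succ]
      nlinarith [Nat.one_le_pow l k (by omega)]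
    have h3 : Real.log ((a : ℝ) + 2) ≤ (l + 1) * Real.log k := by
      have : ((a : ℝ) + 2) ≤ (k : ℝ) ^ (l + 1) := by exact_mod_cast h2
      have := Real.log_le_log (by positivity) this
      rw [Real.log_pow] at this
      exact_mod_cast this
    have h4 : 1 / 2 ≤ Real.log ((a : ℝ) + 2) := by
      have : Real.log 2 ≤ Real.log ((a : ℝ) + 2) :=
        Real.log_le_log (by norm_num) (by linarith [Nat.cast_nonneg (α := ℝ) a])
      linarith [Real.log_two_gt_d9]
    constructor
    · rw [div_mul_eq_mul_div, one_mul, div_le_iff₀ hk0]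
      exact h3
    · rcases Nat.eq_zero_or_pos a with rfl | ha0
      · simp only [Nat.digits_zero, List.length_nil] at hl
        rw [hl]
        have : 0 ≤ (1 / Real.log k + 2) * Real.log (((0 : ℕ) : ℝ) + 2) := by positivity
        simpa using this
      · have h5 : k ^ (l - 1) ≤ a := by
          have h6 := Nat.base_pow_length_digits_le' k a
          rw [hl, Nat.length_digits k a (by omega) (by omega)]
          simpa using Nat.pow_log_le_self k (by omega)
        have h7 : ((l - 1 : ℕ) : ℝ) * Real.log k ≤ Real.log ((a : ℝ) + 2) := by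
          have h8 : ((k : ℝ) ^ (l - 1)) ≤ (a : ℝ) + 2 := by
            have : ((k : ℝ) ^ (l - 1)) ≤ (a : ℝ) := by exact_mod_cast h5
            linarith
          have h9 := Real.log_le_log (by positivity) h8
          rwa [Real.log_pow] at h9
        have h10 : (l : ℝ) ≤ ((l - 1 : ℕ) : ℝ) + 1 := by
          have : l ≤ (l - 1) + 1 := by omega
          exact_mod_cast this
        have h11 : ((l - 1 : ℕ) : ℝ) ≤ 1 / Real.log k * Real.log ((a : ℝ) + 2) := by
          rw [div_mul_eq_mul_div, one_mul, le_div_iff₀ hk0]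
          exact h7
        rw [add_mul]
        linarith

end Pool.Agent.H966R2.ContextFreeSets
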